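import Mathlib
import Pool.Agent.H804R2.DP.Ulim

set_option autoImplicit false
set_option linter.unusedSectionVars false
set_option linter.deprecated false

/-! Means over commutative groups of exponent two, with values in the bounded operators. -/

open scoped InnerProductSpace

namespace Pool.Agent.TH254.CC

section Av

variable {G : Type} [CommGroup G]
variable {X : Type*} [AddCommGroup X] [Module ℂ X]

/-- the average over the products of subsets of `F` -/
noncomputable def av (F : Finset G) (f : G → X) : X :=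
  ((2 : ℂ) ^ F.card)⁻¹ • ∑ A ∈ F.powerset, f (∏ a ∈ A, a)

theorem av_shift (hg : ∀ g : G, g * g = 1) (F : Finset G) (t : G) (ht : t ∈ F) (f : G → X) :
    av F (fun s => f (t * s)) = av F f := by
  classical
  unfold av
  congr 1
  refine Finset.sum_nbij' (fun A => if t ∈ A then A.erase t else insert t A)
    (fun A => if t ∈ A then A.erase t else insert t A) ?_ ?_ ?_ ?_ ?_
  · intro A hA
    rw [Finset.mem_powerset] at hA ⊢
    split_ifs
    · exact (Finset.erase_subset _ _).trans hA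
    · exact Finset.insert_subset ht hA
  · intro A hA
    rw [Finset.mem_powerset] at hA ⊢
    split_ifs
    · exact (Finset.erase_subset _ _).trans hA
    · exact Finset.insert_subset ht hA
  · intro A _
    by_cases h : t ∈ A
    · simp [h]
    · simp [h]
  · intro A _
    by_cases h : t ∈ A
    · simp [h]
    · simp [h]
  · intro A _
    by_cases h : t ∈ A
    · simp only [h, if_true]
      congr 1
      rw [← Finset.mul_prod_erase A (fun a => a) h, ← mul_assoc, hg, one_mul]
    · simp only [h, if_false]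
      rw [Finset.prod_insert h]

theorem av_const (F : Finset G) (x : X) : av F (fun _ => x) = x := by
  unfold av
  rw [Finset.sum_const, Finset.card_powerset, ← Nat.cast_smul_eq_nsmul ℂ, smul_smul]
  push_cast
  rw [inv_mul_cancel₀ (pow_ne_zero _ two_ne_zero), one_smul]

theorem av_map {Y : Type*} [AddCommGroup Y] [Module ℂ Y] (L : X →ₗ[ℂ] Y) (F : Finset G)
    (f : G → X) : L (av F f) = av F (fun s => L (f s)) := by
  unfold av
  rw [map_smul, map_sum]

theorem av_add (F : Finset G) (f g : G → X) : av F (fun s => f s + g s) = av F f + av F g := by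
  unfold av
  rw [Finset.sum_add_distrib, smul_add]

end Av

section Norm

variable {G : Type} [CommGroup G]
variable {X : Type*} [SeminormedAddCommGroup X] [NormedSpace ℂ X]

theorem av_norm (F : Finset G) (f : G → X) (c : ℝ) (hf : ∀ s, ‖f s‖ ≤ c) : ‖av F f‖ ≤ c := by
  unfold av
  rw [norm_smul, norm_inv, norm_pow]
  have h1 : ‖∑ A ∈ F.powerset, f (∏ a ∈ A, a)‖ ≤ ∑ A ∈ F.powerset, c :=
    norm_sum_le_of_le _ fun A _ => hf _
  rw [Finset.sum_const, Finset.card_powerset, nsmul_eq_mul] at h1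
  push_cast at h1
  have h2 : ‖(2 : ℂ)‖ = 2 := by simp
  rw [h2]
  calc ((2 : ℝ) ^ F.card)⁻¹ * ‖∑ A ∈ F.powerset, f (∏ a ∈ A, a)‖
      ≤ ((2 : ℝ) ^ F.card)⁻¹ * (2 ^ F.card * c) := by gcongr
    _ = c := by rw [← mul_assoc, inv_mul_cancel₀ (by positivity), one_mul]

end Norm

section Mean

variable {H : Type} [NormedAddCommGroup H] [InnerProductSpace ℂ H] [CompleteSpace H]
variable {G : Type} [CommGroup G]

/-- the ultrafilter on finite subsets -/
noncomputable def UU (G : Type) : Ultrafilter (Finset G) := Ultrafilter.of Filter.atTop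

theorem UU_mem (t : G) : ∀ᶠ F in (UU G : Filter (Finset G)), t ∈ F := by
  classical
  have h : ∀ᶠ F in (Filter.atTop : Filter (Finset G)), t ∈ F := by
    filter_upwards [Filter.eventually_ge_atTop {t}] with F hF
    exact hF (Finset.mem_singleton_self t)
  exact (Ultrafilter.of_le (Filter.atTop : Filter (Finset G))) h

/-- `S` is the mean of `f` -/
def IsMn (f : G → (H →L[ℂ] H)) (S : H →L[ℂ] H) : Prop :=
  ∀ ξ η : H, Filter.Tendsto (fun F => ⟪η, av F f ξ⟫_ℂ) (UU G) (nhds ⟪η, S ξ⟫_ℂ)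

theorem exists_mn (f : G → (H →L[ℂ] H)) (c : ℝ) (hf : ∀ s, ‖f s‖ ≤ c) :
    ∃ S : H →L[ℂ] H, ‖S‖ ≤ c ∧ IsMn f S :=
  H710R2.DP.dp_ulim H (Finset G) (UU G) (fun F => av F f) c (fun F => av_norm F f c hf)

theorem IsMn.unique {f : G → (H →L[ℂ] H)} {S S' : H →L[ℂ] H} (h : IsMn f S) (h' : IsMn f S') :
    S = S' := by
  ext1 ξ
  refine ext_inner_left ℂ fun η => ?_
  exact tendsto_nhds_unique (h ξ η) (h' ξ η)

theorem IsMn.norm {f : G → (H →L[ℂ] H)} {S : H →L[ℂ] H} (h : IsMn f S) (c : ℝ)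
    (hf : ∀ s, ‖f s‖ ≤ c) : ‖S‖ ≤ c := by
  obtain ⟨S', h1, h2⟩ := exists_mn f c hf
  rw [h.unique h2]
  exact h1

theorem IsMn.const (a : H →L[ℂ] H) : IsMn (fun _ : G => a) a := by
  intro ξ η
  have : ∀ F : Finset G, av F (fun _ : G => a) = a := fun F => av_const F a
  simp only [this]
  exact tendsto_const_nhds

theorem IsMn.mulLeft {f : G → (H →L[ℂ] H)} {S : H →L[ℂ] H} (h : IsMn f S) (a : H →L[ℂ] H) :
    IsMn (fun s => a * f s) (a * S) := by
  intro ξ η
  have h1 := h ξ ((star a) η)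
  have e : ∀ v : H, ⟪(star a) η, v⟫_ℂ = ⟪η, a v⟫_ℂ := fun v => by
    rw [ContinuousLinearMap.star_eq_adjoint, ContinuousLinearMap.adjoint_inner_left]
  rw [e] at h1
  refine h1.congr fun F => ?_
  rw [e]
  have h2 := av_map (LinearMap.mulLeft ℂ a) F f
  simp only [LinearMap.mulLeft_apply] at h2
  rw [← h2]
  rfl

theorem IsMn.mulRight {f : G → (H →L[ℂ] H)} {S : H →L[ℂ] H} (h : IsMn f S) (a : H →L[ℂ] H) :
    IsMn (fun s => f s * a) (S * a) := by
  intro ξ η
  refine (h (a ξ) η).congr fun F => ?_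
  have h2 := av_map (LinearMap.mulRight ℂ a) F f
  simp only [LinearMap.mulRight_apply] at h2
  rw [← h2]
  rfl

theorem IsMn.add {f g : G → (H →L[ℂ] H)} {S T : H →L[ℂ] H} (h : IsMn f S) (h' : IsMn g T) :
    IsMn (fun s => f s + g s) (S + T) := by
  intro ξ η
  have h1 := (h ξ η).add (h' ξ η)
  rw [← inner_add_right, ← ContinuousLinearMap.add_apply] at h1
  refine h1.congr fun F => ?_
  rw [av_add, ContinuousLinearMap.add_apply, inner_add_right]

theorem IsMn.neg {f : G → (H →L[ℂ] H)} {S : H →L[ℂ] H} (h : IsMn f S) :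
    IsMn (fun s => - f s) (- S) := by
  have := h.mulLeft (-1)
  simpa using this

theorem IsMn.sub {f g : G → (H →L[ℂ] H)} {S T : H →L[ℂ] H} (h : IsMn f S) (h' : IsMn g T) :
    IsMn (fun s => f s - g s) (S - T) := by
  have := h.add h'.neg
  simpa [sub_eq_add_neg] using this

theorem IsMn.congr {f g : G → (H →L[ℂ] H)} {S : H →L[ℂ] H} (h : IsMn f S) (hfg : ∀ s, f s = g s) :
    IsMn g S := by
  have : f = g := funext hfg
  rw [← this]
  exact h

theorem IsMn.shift (hg : ∀ g : G, g * g = 1) {f : G → (H →L[ℂ] H)} {S : H →L[ℂ] H}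
    (h : IsMn f S) (t : G) : IsMn (fun s => f (t * s)) S := by
  intro ξ η
  refine (h ξ η).congr' ?_
  filter_upwards [UU_mem t] with F hF
  rw [av_shift hg F t hF]

theorem IsMn.comm {f : G → (H →L[ℂ] H)} {S : H →L[ℂ] H} (h : IsMn f S) (b : H →L[ℂ] H)
    (hb : ∀ s, b * f s = f s * b) : b * S = S * b :=
  ((h.mulLeft b).congr hb).unique (h.mulRight b)

theorem IsMn.mem {f : G → (H →L[ℂ] H)} {S : H →L[ℂ] H} (h : IsMn f S) (W : VonNeumannAlgebra H)
    (hf : ∀ s, f s ∈ W) : S ∈ W := by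
  have h1 : S ∈ Set.centralizer (Set.centralizer (W : Set (H →L[ℂ] H))) := by
    intro b hb
    exact h.comm b fun s => (hb (f s) (hf s)).symm
  rw [VonNeumannAlgebra.centralizer_centralizer] at h1
  exact h1

theorem IsMn.norm_sub {f : G → (H →L[ℂ] H)} {S : H →L[ℂ] H} (h : IsMn f S) (a : H →L[ℂ] H) (c : ℝ)
    (hf : ∀ s, ‖f s - a‖ ≤ c) : ‖S - a‖ ≤ c :=
  (h.sub (IsMn.const a)).norm c hf

theorem IsMn.star {f : G → (H →L[ℂ] H)} {S : H →L[ℂ] H} (h : IsMn f S) :
    IsMn (fun s => star (f s)) (star S) := by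
  intro ξ η
  have h1 := ((h η ξ).star)
  have e : ∀ (A : H →L[ℂ] H) (u v : H), Star.star ⟪u, A v⟫_ℂ = ⟪v, (Star.star A) u⟫_ℂ := by
    intro A u v
    rw [ContinuousLinearMap.star_eq_adjoint, ContinuousLinearMap.adjoint_inner_right]
    exact inner_conj_symm _ _
  rw [e] at h1
  refine h1.congr fun F => ?_
  rw [e]
  congr 2
  unfold av
  rw [star_smul, star_sum]
  congr 1
  simp

/-- constant matrix coefficients pass to the mean -/
theorem IsMn.re_inner {f : G → (H →L[ℂ] H)} {S : H →L[ℂ] H} (h : IsMn f S) (ξ η : H) (c : ℂ)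
    (hc : ∀ s, ⟪η, f s ξ⟫_ℂ = c) : ⟪η, S ξ⟫_ℂ = c := by
  refine tendsto_nhds_unique (h ξ η) ?_
  have : (fun F : Finset G => ⟪η, (av F f) ξ⟫_ℂ) = fun _ => c := by
    funext F
    have h2 := av_map ((innerSL ℂ η).toLinearMap ∘ₗ (ContinuousLinearMap.apply ℂ H ξ).toLinearMap)
      F f
    have h3 : ⟪η, (av F f) ξ⟫_ℂ = av F (fun s => ⟪η, f s ξ⟫_ℂ) := h2
    refine h3.trans ?_
    simp only [hc]
    exact av_const F c
  rw [this]
  exact tendsto_const_nhds

end Mean

end Pool.Agent.TH254.CC
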