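import Mathlib
import Pool.Agent.TH254.CC.Mean

set_option autoImplicit false
set_option linter.unusedSectionVars false
set_option linter.deprecated false

/-! Representations of commutative groups of exponent two which are close to a von Neumann
algebra. -/

open scoped InnerProductSpace

namespace Pool.Agent.TH254.CC

variable {H : Type} [NormedAddCommGroup H] [InnerProductSpace ℂ H] [CompleteSpace H]
variable {G : Type} [CommGroup G]

/-- `x` is within `ε` of `W` -/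
def Nr (W : VonNeumannAlgebra H) (x : H →L[ℂ] H) (ε : ℝ) : Prop := ∃ n ∈ W, ‖x - n‖ ≤ ε

theorem inv_near (T : H →L[ℂ] H) (r : ℝ) (hr : r ≤ 1 / 2) (hT : ‖T - 1‖ ≤ r) :
    ∃ T' : H →L[ℂ] H, T * T' = 1 ∧ T' * T = 1 ∧ ‖T' - 1‖ ≤ 2 * r := by
  have h1 : ‖(1 : H →L[ℂ] H) - T‖ < 1 := by
    rw [norm_sub_rev]
    linarith
  set u := Units.oneSub (1 - T) h1 with hu
  have huT : (u : H →L[ℂ] H) = T := by
    rw [hu, Units.val_oneSub]
    abel
  refine ⟨((u⁻¹ : (H →L[ℂ] H)ˣ) : H →L[ℂ] H), ?_, ?_, ?_⟩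
  · rw [← huT]; exact u.mul_inv
  · rw [← huT]; exact u.inv_mul
  · set T' := ((u⁻¹ : (H →L[ℂ] H)ˣ) : H →L[ℂ] H) with hT'
    have e1 : T' * T = 1 := by rw [← huT]; exact u.inv_mul
    have e2 : T' - 1 = T' * (1 - T) := by rw [mul_sub, e1, mul_one]
    have h0 : 0 ≤ r := (norm_nonneg _).trans hT
    have e3 : ‖T' - 1‖ ≤ ‖T'‖ * r := by
      rw [e2]
      refine (norm_mul_le _ _).trans (mul_le_mul_of_nonneg_left ?_ (norm_nonneg _))
      rw [norm_sub_rev]
      exact hT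
    have e4 : ‖T'‖ ≤ ‖T' - 1‖ + 1 := by
      calc ‖T'‖ = ‖(T' - 1) + 1‖ := by rw [sub_add_cancel]
        _ ≤ ‖T' - 1‖ + ‖(1 : H →L[ℂ] H)‖ := norm_add_le _ _
        _ ≤ ‖T' - 1‖ + 1 := by
          gcongr
          exact ContinuousLinearMap.norm_id_le
    have e5 : ‖T'‖ ≤ 2 := by nlinarith [norm_nonneg T']
    nlinarith [norm_nonneg T']

/-- commutation with the inverse -/
theorem comm_inv {T T' b : H →L[ℂ] H} (h1 : T * T' = 1) (h2 : T' * T = 1) (hb : b * T = T * b) :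
    b * T' = T' * b := by
  calc b * T' = (T' * T) * b * T' := by rw [h2, one_mul]
    _ = T' * (T * b) * T' := by noncomm_ring
    _ = T' * (b * T) * T' := by rw [hb]
    _ = T' * b * (T * T') := by noncomm_ring
    _ = T' * b := by rw [h1, mul_one]

theorem norm_le_of_sub_one (T : H →L[ℂ] H) (r : ℝ) (h : ‖T - 1‖ ≤ r) : ‖T‖ ≤ 1 + r := by
  calc ‖T‖ = ‖(T - 1) + 1‖ := by rw [sub_add_cancel]
    _ ≤ ‖T - 1‖ + ‖(1 : H →L[ℂ] H)‖ := norm_add_le _ _
    _ ≤ r + 1 := add_le_add h ContinuousLinearMap.norm_id_le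
    _ = 1 + r := add_comm _ _

/-- one step of the correction -/
theorem kaz_step (hg : ∀ g : G, g * g = 1) (W : VonNeumannAlgebra H) (φ : G → (H →L[ℂ] H))
    (hφ1 : φ 1 = 1) (hφ : ∀ g h, φ (g * h) = φ g * φ h) (hφn : ∀ g, ‖φ g‖ ≤ 2)
    (ε : ℝ) (hε : ε ≤ 1 / 108) (hn : ∀ g, Nr W (φ g) ε) :
    ∃ T T' : H →L[ℂ] H, T * T' = 1 ∧ T' * T = 1 ∧ ‖T - 1‖ ≤ 2 * ε ∧ ‖T' - 1‖ ≤ 4 * ε ∧
      (∀ g, Nr W (T * φ g * T') (ε / 2)) ∧
      ∀ b : H →L[ℂ] H, (∀ x ∈ W, b * x = x * b) → (∀ g, b * φ g = φ g * b) → b * T = T * b := by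
  have hε0 : 0 ≤ ε := by
    obtain ⟨n, _, hn⟩ := hn 1
    exact (norm_nonneg _).trans hn
  choose n hnW hnn using hn
  have hnn' : ∀ g, ‖n g‖ ≤ 2 + ε := by
    intro g
    calc ‖n g‖ = ‖φ g - (φ g - n g)‖ := by rw [sub_sub_cancel]
      _ ≤ ‖φ g‖ + ‖φ g - n g‖ := norm_sub_le _ _
      _ ≤ 2 + ε := add_le_add (hφn g) (hnn g)
  have hsq : ∀ g, φ g * φ g = 1 := by
    intro g
    rw [← hφ, hg, hφ1]
  -- the averaged operator
  obtain ⟨T, -, hT⟩ := exists_mn (fun s => n s * φ s) ((2 + ε) * 2) (fun s =>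
    (norm_mul_le _ _).trans (mul_le_mul (hnn' s) (hφn s) (norm_nonneg _) (by linarith)))
  have hT1 : ‖T - 1‖ ≤ 2 * ε := by
    refine hT.norm_sub 1 (2 * ε) fun s => ?_
    rw [← hsq s, ← sub_mul]
    refine (norm_mul_le _ _).trans ?_
    rw [norm_sub_rev, mul_comm]
    exact mul_le_mul (hφn s) (hnn s) (norm_nonneg _) (by norm_num)
  obtain ⟨T', hTT', hT'T, hT'1⟩ := inv_near T (2 * ε) (by linarith) hT1
  have hT'1' : ‖T' - 1‖ ≤ 4 * ε := by linarith
  refine ⟨T, T', hTT', hT'T, hT1, hT'1', fun t => ?_, fun b hbW hbφ => ?_⟩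
  · -- the defect
    have hd : ∀ s, ‖n t * n s - n (t * s)‖ ≤ 6 * ε := by
      intro s
      have e : n t * n s - n (t * s) = (n t - φ t) * n s + φ t * (n s - φ s) +
          (φ (t * s) - n (t * s)) := by rw [hφ]; noncomm_ring
      rw [e]
      refine (norm_add_le _ _).trans ?_
      have h1 : ‖(n t - φ t) * n s‖ ≤ ε * (2 + ε) := by
        refine (norm_mul_le _ _).trans ?_
        rw [norm_sub_rev]
        exact mul_le_mul (hnn t) (hnn' s) (norm_nonneg _) hε0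
      have h2 : ‖φ t * (n s - φ s)‖ ≤ 2 * ε := by
        refine (norm_mul_le _ _).trans ?_
        rw [norm_sub_rev]
        exact mul_le_mul (hφn t) (hnn s) (norm_nonneg _) (by norm_num)
      have h3 := norm_add_le ((n t - φ t) * n s) (φ t * (n s - φ s))
      have h4 := hnn (t * s)
      nlinarith
    obtain ⟨X, hXn, hX⟩ := exists_mn (fun s => (n t * n s - n (t * s)) * φ s) (12 * ε) (fun s => by
      refine (norm_mul_le _ _).trans ?_
      have := mul_le_mul (hd s) (hφn s) (norm_nonneg _) (by positivity)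
      linarith)
    obtain ⟨X', -, hX'⟩ := exists_mn (fun s => (n t * n s - n (t * s)) * n s)
      (6 * ε * (2 + ε)) (fun s =>
      (norm_mul_le _ _).trans (mul_le_mul (hd s) (hnn' s) (norm_nonneg _) (by positivity)))
    have hX'W : X' ∈ W := hX'.mem W fun s =>
      mul_mem (sub_mem (mul_mem (hnW t) (hnW s)) (hnW _)) (hnW s)
    have hXX' : ‖X - X'‖ ≤ 6 * ε * ε := by
      refine (hX.sub hX').norm _ fun s => ?_
      rw [← mul_sub]
      exact (norm_mul_le _ _).trans (mul_le_mul (hd s) (hnn s) (norm_nonneg _) (by positivity))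
    have hkey : n t * T - T * φ t = X := by
      have h1 : IsMn (fun s => n t * (n s * φ s)) (n t * T) := hT.mulLeft (n t)
      have h2 : IsMn (fun s => n s * φ s * φ t) (T * φ t) := hT.mulRight (φ t)
      have h3 : IsMn (fun s => n (t * s) * φ (t * s) * φ t) (T * φ t) := h2.shift hg t
      refine (IsMn.congr (h1.sub h3) fun s => ?_).unique hX
      have e : φ (t * s) * φ t = φ s := by
        rw [← hφ, mul_comm t s, mul_assoc, hg, mul_one]
      rw [mul_assoc (n (t * s)), e]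
      noncomm_ring
    refine ⟨n t - X', sub_mem (hnW t) hX'W, ?_⟩
    have e : T * φ t * T' - (n t - X') = -(X * (T' - 1)) - (X - X') := by
      have h1 : T * φ t = n t * T - X := by rw [← hkey]; noncomm_ring
      rw [h1, sub_mul, mul_assoc, hTT', mul_one]
      noncomm_ring
    rw [e]
    refine (norm_sub_le _ _).trans ?_
    rw [norm_neg]
    have h5 : ‖X * (T' - 1)‖ ≤ 12 * ε * (4 * ε) :=
      (norm_mul_le _ _).trans (mul_le_mul hXn hT'1' (norm_nonneg _) (by positivity))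
    nlinarith
  · exact hT.comm b fun s => by rw [← mul_assoc, hbW _ (hnW s), mul_assoc, hbφ, mul_assoc]

end Pool.Agent.TH254.CC
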