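import Mathlib
import Pool.Agent.TH254.CC.Kaz

set_option autoImplicit false
set_option linter.unusedSectionVars false
set_option linter.deprecated false

open scoped InnerProductSpace
open Filter Topology

namespace Pool.Agent.TH254.CC

variable {H : Type} [NormedAddCommGroup H] [InnerProductSpace ℂ H] [CompleteSpace H]
variable {G : Type} [CommGroup G]

theorem exists_seq {α : Type*} (P : ℕ → α → Prop) (R : ℕ → α → α → Prop) (a : α) (h0 : P 0 a)
    (hs : ∀ n x, P n x → ∃ y, P (n + 1) y ∧ R n x y) :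
    ∃ f : ℕ → α, f 0 = a ∧ ∀ n, P n (f n) ∧ R n (f n) (f (n + 1)) := by
  choose F hF1 hF2 using hs
  let g : ∀ n : ℕ, {x : α // P n x} := fun n =>
    Nat.rec ⟨a, h0⟩ (fun n x => ⟨F n x.1 x.2, hF1 n x.1 x.2⟩) n
  refine ⟨fun n => (g n).1, rfl, fun n => ⟨(g n).2, ?_⟩⟩
  exact hF2 n (g n).1 (g n).2

/-- the state of the iteration -/
structure Good (W : VonNeumannAlgebra H) (ρ : G → (H →L[ℂ] H)) (B : Set (H →L[ℂ] H)) (a ε : ℝ)
    (T : (H →L[ℂ] H) × (H →L[ℂ] H)) : Prop where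
  tt : T.1 * T.2 = 1
  tt' : T.2 * T.1 = 1
  n1 : ‖T.1 - 1‖ ≤ a
  n2 : ‖T.2 - 1‖ ≤ a
  near : ∀ g, Nr W (T.1 * ρ g * T.2) ε
  comm : ∀ b ∈ B, b * T.1 = T.1 * b

theorem mem_of_approx (W : VonNeumannAlgebra H) (x : H →L[ℂ] H)
    (h : ∀ ε : ℝ, 0 < ε → ∃ n ∈ W, ‖x - n‖ ≤ ε) : x ∈ W := by
  have h1 : x ∈ closure (W.toStarSubalgebra : Set (H →L[ℂ] H)) := by
    rw [Metric.mem_closure_iff]
    intro ε hε
    obtain ⟨n, hn, hx⟩ := h (ε / 2) (by positivity)
    refine ⟨n, hn, ?_⟩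
    rw [dist_eq_norm]
    linarith
  rw [(H759R2.Kad.vn_isClosed W).closure_eq] at h1
  exact h1

theorem kaz_iter (hg : ∀ g : G, g * g = 1) (W : VonNeumannAlgebra H) (ρ : G → (H →L[ℂ] H))
    (hρ1 : ρ 1 = 1) (hρ : ∀ g h, ρ (g * h) = ρ g * ρ h) (hρn : ∀ g, ‖ρ g‖ ≤ 1)
    (B : Set (H →L[ℂ] H)) (hBW : ∀ b ∈ B, ∀ x ∈ W, b * x = x * b)
    (hBρ : ∀ b ∈ B, ∀ g, b * ρ g = ρ g * b)
    (ε : ℝ) (hε0 : 0 < ε) (hε : ε ≤ 1 / 108) (hn : ∀ g, Nr W (ρ g) ε) :
    ∃ T T' : H →L[ℂ] H, T * T' = 1 ∧ T' * T = 1 ∧ ‖T - 1‖ ≤ 16 * ε ∧ ‖T' - 1‖ ≤ 16 * ε ∧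
      (∀ g, T * ρ g * T' ∈ W) ∧ ∀ b ∈ B, b * T = T * b := by
  have hstep : ∀ (k : ℕ) (T : (H →L[ℂ] H) × (H →L[ℂ] H)),
      Good W ρ B (16 * ε * (1 - (1 / 2) ^ k)) (ε * (1 / 2) ^ k) T →
      ∃ S, Good W ρ B (16 * ε * (1 - (1 / 2) ^ (k + 1))) (ε * (1 / 2) ^ (k + 1)) S ∧
        (‖S.1 - T.1‖ ≤ 8 * ε * (1 / 2) ^ k ∧ ‖S.2 - T.2‖ ≤ 8 * ε * (1 / 2) ^ k) := by
    rintro k ⟨T, T'⟩ h
    have hk0 : (0 : ℝ) < (1 / 2) ^ k := by positivity
    have hk1 : ((1 : ℝ) / 2) ^ k ≤ 1 := pow_le_one₀ (by norm_num) (by norm_num)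
    have ha : 16 * ε * (1 - (1 / 2 : ℝ) ^ k) ≤ 1 / 4 := by nlinarith
    have e1 : T * T' = 1 := h.tt
    have e2 : T' * T = 1 := h.tt'
    have nT : ‖T‖ ≤ 5 / 4 := (norm_le_of_sub_one T _ (h.n1.trans ha)).trans (by norm_num)
    have nT' : ‖T'‖ ≤ 5 / 4 := (norm_le_of_sub_one T' _ (h.n2.trans ha)).trans (by norm_num)
    obtain ⟨S, S', f1, f2, f3, f4, f5, f6⟩ := kaz_step hg W (fun g => T * ρ g * T')
      (by simp only [hρ1, mul_one, e1]) (by
        intro g h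
        simp only [hρ]
        calc T * (ρ g * ρ h) * T' = T * ρ g * 1 * ρ h * T' := by noncomm_ring
          _ = T * ρ g * (T' * T) * ρ h * T' := by rw [e2]
          _ = _ := by noncomm_ring) (by
        intro g
        have h1 : ‖T * ρ g * T'‖ ≤ ‖T‖ * ‖ρ g‖ * ‖T'‖ :=
          (norm_mul_le _ _).trans (mul_le_mul_of_nonneg_right (norm_mul_le _ _) (norm_nonneg _))
        refine h1.trans ?_
        have h2 : ‖T‖ * ‖ρ g‖ ≤ 5 / 4 * 1 :=
          mul_le_mul nT (hρn g) (norm_nonneg _) (by norm_num)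
        have h3 : ‖T‖ * ‖ρ g‖ * ‖T'‖ ≤ (5 / 4 * 1) * (5 / 4) :=
          mul_le_mul h2 nT' (norm_nonneg _) (by norm_num)
        linarith) (ε * (1 / 2) ^ k) (by nlinarith) h.near
    have hd1 : ‖S * T - T‖ ≤ 4 * ε * (1 / 2) ^ k := by
      have : S * T - T = (S - 1) * T := by noncomm_ring
      rw [this]
      refine (norm_mul_le _ _).trans ?_
      have := mul_le_mul f3 nT (norm_nonneg _) (by positivity)
      nlinarith
    have hd2 : ‖T' * S' - T'‖ ≤ 8 * ε * (1 / 2) ^ k := by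
      have : T' * S' - T' = T' * (S' - 1) := by noncomm_ring
      rw [this]
      refine (norm_mul_le _ _).trans ?_
      have := mul_le_mul nT' f4 (norm_nonneg _) (by norm_num)
      nlinarith
    refine ⟨(S * T, T' * S'), ⟨?_, ?_, ?_, ?_, ?_, ?_⟩, ?_, hd2⟩
    · calc S * T * (T' * S') = S * (T * T') * S' := by noncomm_ring
        _ = 1 := by rw [e1, mul_one, f1]
    · calc T' * S' * (S * T) = T' * (S' * S) * T := by noncomm_ring
        _ = 1 := by rw [f2, mul_one, e2]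
    · have h1 := norm_add_le (S * T - T) (T - 1)
      rw [sub_add_sub_cancel] at h1
      have h2 : ‖T - 1‖ ≤ _ := h.n1
      simp only
      rw [pow_succ]
      nlinarith
    · have h1 := norm_add_le (T' * S' - T') (T' - 1)
      rw [sub_add_sub_cancel] at h1
      have h2 : ‖T' - 1‖ ≤ _ := h.n2
      simp only
      rw [pow_succ]
      nlinarith
    · intro g
      obtain ⟨n, hn, hx⟩ := f5 g
      refine ⟨n, hn, ?_⟩
      have e : S * T * ρ g * (T' * S') = S * (T * ρ g * T') * S' := by noncomm_ring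
      rw [e, pow_succ]
      linarith
    · intro b hb
      have h1 : b * T = T * b := h.comm b hb
      have h2 : b * T' = T' * b := comm_inv e1 e2 h1
      have h3 := f6 b (hBW b hb) (fun g => by
        calc b * (T * ρ g * T') = (b * T) * ρ g * T' := by noncomm_ring
          _ = T * (b * ρ g) * T' := by rw [h1]; noncomm_ring
          _ = T * ρ g * (b * T') := by rw [hBρ b hb]; noncomm_ring
          _ = T * ρ g * T' * b := by rw [h2]; noncomm_ring)
      show b * (S * T) = S * T * b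
      rw [← mul_assoc, h3, mul_assoc, h1, mul_assoc]
    · refine hd1.trans ?_
      nlinarith
  obtain ⟨f, hf0, hf⟩ := exists_seq
    (fun k T => Good W ρ B (16 * ε * (1 - (1 / 2) ^ k)) (ε * (1 / 2) ^ k) T)
    (fun k T S => ‖S.1 - T.1‖ ≤ 8 * ε * (1 / 2) ^ k ∧ ‖S.2 - T.2‖ ≤ 8 * ε * (1 / 2) ^ k)
    ((1 : H →L[ℂ] H), (1 : H →L[ℂ] H)) (by
      refine ⟨by simp, by simp, by simp, by simp, fun g => ?_, fun b _ => by simp⟩
      simpa using hn g) (fun k T h => hstep k T h)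
  have hc1 : CauchySeq fun k => (f k).1 := by
    refine cauchySeq_of_le_geometric (1 / 2) (8 * ε) (by norm_num) fun k => ?_
    rw [dist_eq_norm, norm_sub_rev]
    exact (hf k).2.1
  have hc2 : CauchySeq fun k => (f k).2 := by
    refine cauchySeq_of_le_geometric (1 / 2) (8 * ε) (by norm_num) fun k => ?_
    rw [dist_eq_norm, norm_sub_rev]
    exact (hf k).2.2
  obtain ⟨T, hT⟩ := cauchySeq_tendsto_of_complete hc1
  obtain ⟨T', hT'⟩ := cauchySeq_tendsto_of_complete hc2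
  refine ⟨T, T', ?_, ?_, ?_, ?_, ?_, ?_⟩
  · refine tendsto_nhds_unique (hT.mul hT') ?_
    simp only [(hf _).1.tt]
    exact tendsto_const_nhds
  · refine tendsto_nhds_unique (hT'.mul hT) ?_
    simp only [(hf _).1.tt']
    exact tendsto_const_nhds
  · refine le_of_tendsto ((hT.sub_const 1).norm) (Eventually.of_forall fun k => ?_)
    refine (hf k).1.n1.trans ?_
    have : (0 : ℝ) ≤ (1 / 2) ^ k := by positivity
    nlinarith
  · refine le_of_tendsto ((hT'.sub_const 1).norm) (Eventually.of_forall fun k => ?_)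
    refine (hf k).1.n2.trans ?_
    have : (0 : ℝ) ≤ (1 / 2) ^ k := by positivity
    nlinarith
  · intro g
    have hlim : Tendsto (fun k => (f k).1 * ρ g * (f k).2) atTop (𝓝 (T * ρ g * T')) :=
      (hT.mul_const _).mul hT'
    have hgeo : Tendsto (fun k : ℕ => ε * (1 / 2 : ℝ) ^ k) atTop (𝓝 0) := by
      have := (tendsto_pow_atTop_nhds_zero_of_lt_one (r := (1 / 2 : ℝ)) (by norm_num)
        (by norm_num)).const_mul ε
      simpa using this
    apply mem_of_approx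
    intro η hη
    have h1 : ∀ᶠ k in atTop, ‖T * ρ g * T' - (f k).1 * ρ g * (f k).2‖ < η / 2 := by
      have := (tendsto_iff_norm_sub_tendsto_zero.1 hlim).eventually (gt_mem_nhds
        (show (0 : ℝ) < η / 2 by positivity))
      filter_upwards [this] with k hk
      rw [norm_sub_rev]
      exact hk
    have h2 : ∀ᶠ k in atTop, ε * (1 / 2 : ℝ) ^ k < η / 2 :=
      hgeo.eventually (gt_mem_nhds (show (0 : ℝ) < η / 2 by positivity))
    obtain ⟨k, hk1, hk2⟩ := (h1.and h2).exists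
    obtain ⟨n, hn, hx⟩ := (hf k).1.near g
    refine ⟨n, hn, ?_⟩
    calc ‖T * ρ g * T' - n‖ = ‖(T * ρ g * T' - (f k).1 * ρ g * (f k).2) +
          ((f k).1 * ρ g * (f k).2 - n)‖ := by rw [sub_add_sub_cancel]
      _ ≤ _ := norm_add_le _ _
      _ ≤ η := by linarith
  · intro b hb
    refine tendsto_nhds_unique (hT.const_mul b) ?_
    simp only [(hf _).1.comm b hb]
    exact hT.mul_const b

end Pool.Agent.TH254.CC
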