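import Mathlib

set_option autoImplicit false
set_option linter.unusedSectionVars false
set_option linter.deprecated false

open scoped InnerProductSpace

namespace Pool.Agent.TH254.CC

variable {H : Type} [NormedAddCommGroup H] [InnerProductSpace ℂ H] [CompleteSpace H]

/-- square roots of operators close to the identity -/
theorem sqrt_near (P : H →L[ℂ] H) (hP : star P = P) (r : ℝ) (hr : r ≤ 1 / 2) (h : ‖P - 1‖ ≤ r) :
    ∃ p : H →L[ℂ] H, star p = p ∧ p * p = P ∧ ‖p - 1‖ ≤ r ∧
      ∀ b : H →L[ℂ] H, b * P = P * b → b * p = p * b := by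
  have hsa : IsSelfAdjoint P := hP
  have hsp : ∀ x ∈ spectrum ℝ P, |x - 1| ≤ r := by
    intro x hx
    have h1 := norm_apply_le_norm_cfc (fun x : ℝ => x - 1) P hx
    rw [cfc_sub (fun x : ℝ => x) (fun _ => (1 : ℝ)) P (by fun_prop) (by fun_prop), cfc_id' ℝ P,
      cfc_const_one ℝ P] at h1
    exact h1.trans h
  have h0 : 0 ≤ r := (norm_nonneg _).trans h
  refine ⟨cfc Real.sqrt P, (cfc_predicate Real.sqrt P : IsSelfAdjoint _), ?_, ?_, ?_⟩
  · rw [← cfc_mul Real.sqrt Real.sqrt P (by fun_prop) (by fun_prop)]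
    have h2 : cfc (fun x => Real.sqrt x * Real.sqrt x) P = cfc (fun x : ℝ => x) P := by
      apply cfc_congr
      intro x hx
      have := abs_le.1 (hsp x hx)
      exact Real.mul_self_sqrt (by linarith [this.1])
    rw [h2, cfc_id' ℝ P]
  · have h3 : cfc Real.sqrt P - 1 = cfc (fun x => Real.sqrt x - 1) P := by
      rw [cfc_sub Real.sqrt (fun _ => (1 : ℝ)) P (by fun_prop) (by fun_prop), cfc_const_one ℝ P]
    rw [h3]
    apply norm_cfc_le h0
    intro x hx
    have h4 := hsp x hx
    have h5 := abs_le.1 h4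
    have hx0 : 0 ≤ x := by linarith [h5.1]
    have h6 := Real.sqrt_nonneg x
    have h7 : x - 1 = (Real.sqrt x - 1) * (Real.sqrt x + 1) := by
      have := Real.mul_self_sqrt hx0
      nlinarith
    rw [Real.norm_eq_abs]
    rw [h7, abs_mul, abs_of_nonneg (by linarith : 0 ≤ Real.sqrt x + 1)] at h4
    nlinarith [abs_nonneg (Real.sqrt x - 1)]
  · intro b hb
    have h8 : Commute P b := hb.symm
    exact (h8.cfc_real Real.sqrt).symm

end Pool.Agent.TH254.CC
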