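import Mathlib
import Pool.Agent.TH254.CC.Kaz2
import Pool.Agent.TH254.CC.Sqrt

set_option autoImplicit false
set_option linter.unusedSectionVars false
set_option linter.deprecated false

open scoped InnerProductSpace
open Filter Topology

namespace Pool.Agent.TH254.CC

variable {H : Type} [NormedAddCommGroup H] [InnerProductSpace ℂ H] [CompleteSpace H]
variable {G : Type} [CommGroup G]

theorem norm_le_one_of_sq (x : H →L[ℂ] H) (h : star x * x = 1) : ‖x‖ ≤ 1 := by
  have h1 := CStarRing.norm_star_mul_self (x := x)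
  rw [h] at h1
  have h2 : ‖(1 : H →L[ℂ] H)‖ ≤ 1 := ContinuousLinearMap.norm_id_le
  nlinarith [norm_nonneg x]

theorem mem_of_comm (W : VonNeumannAlgebra H) (P p : H →L[ℂ] H) (hP : P ∈ W)
    (h : ∀ b : H →L[ℂ] H, b * P = P * b → b * p = p * b) : p ∈ W := by
  have h1 : p ∈ Set.centralizer (Set.centralizer (W : Set (H →L[ℂ] H))) := by
    intro b hb
    exact h b (hb P hP).symm
  rw [VonNeumannAlgebra.centralizer_centralizer] at h1
  exact h1

theorem kaz (hg : ∀ g : G, g * g = 1) (W : VonNeumannAlgebra H) (ρ : G → (H →L[ℂ] H))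
    (hρ1 : ρ 1 = 1) (hρ : ∀ g h, ρ (g * h) = ρ g * ρ h) (hρs : ∀ g, star (ρ g) = ρ g)
    (B : Set (H →L[ℂ] H)) (hBs : ∀ b ∈ B, star b = b) (hBW : ∀ b ∈ B, ∀ x ∈ W, b * x = x * b)
    (hBρ : ∀ b ∈ B, ∀ g, b * ρ g = ρ g * b)
    (ε : ℝ) (hε0 : 0 < ε) (hε : ε ≤ 1 / 1000) (hn : ∀ g, Nr W (ρ g) ε) :
    ∃ w : H →L[ℂ] H, w * star w = 1 ∧ star w * w = 1 ∧ ‖w - 1‖ ≤ 400 * ε ∧
      (∀ g, w * ρ g * star w ∈ W) ∧ ∀ b ∈ B, b * w = w * b := by
  have hρρ : ∀ g, ρ g * ρ g = 1 := fun g => by rw [← hρ, hg, hρ1]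
  have hρn : ∀ g, ‖ρ g‖ ≤ 1 := fun g => norm_le_one_of_sq _ (by rw [hρs, hρρ])
  obtain ⟨T, T', tt, tt', n1, n2, hW, hB⟩ := kaz_iter hg W ρ hρ1 hρ hρn B hBW hBρ ε hε0
    (by linarith) hn
  obtain ⟨a, ha⟩ : ∃ a : ℝ, a = 16 * ε := ⟨_, rfl⟩
  rw [← ha] at n1 n2
  have ha0 : 0 < a := by rw [ha]; positivity
  have ha1 : a ≤ 2 / 100 := by rw [ha]; linarith
  have nT : ‖T‖ ≤ 1 + a := norm_le_of_sub_one T a n1
  have nT' : ‖T'‖ ≤ 1 + a := norm_le_of_sub_one T' a n2
  have sn : ∀ x : H →L[ℂ] H, ‖star x - 1‖ = ‖x - 1‖ := by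
    intro x
    have : star x - 1 = star (x - 1) := by rw [star_sub, star_one]
    rw [this, norm_star]
  have sq1 : ∀ x : H →L[ℂ] H, ‖x - 1‖ ≤ a → ‖star x * x - 1‖ ≤ 3 * a := by
    intro x hx
    have e : star x * x - 1 = (star x - 1) * x + (x - 1) := by noncomm_ring
    rw [e]
    have h1 : ‖(star x - 1) * x‖ ≤ a * (1 + a) := (norm_mul_le _ _).trans
      (mul_le_mul (by rw [sn]; exact hx) (norm_le_of_sub_one x a hx) (norm_nonneg _) ha0.le)
    refine (norm_add_le _ _).trans ?_
    nlinarith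
  -- the averaged positive operator
  obtain ⟨X, hX⟩ : ∃ X : H →L[ℂ] H, X = star T * T := ⟨_, rfl⟩
  have hXs : star X = X := by rw [hX, star_mul, star_star]
  have hX1 : ‖X - 1‖ ≤ 3 * a := by rw [hX]; exact sq1 T n1
  have hXn : ‖X‖ ≤ 1 + 3 * a := norm_le_of_sub_one X _ hX1
  obtain ⟨Q, -, hQ⟩ := exists_mn (fun g => ρ g * X * ρ g) (1 * (1 + 3 * a) * 1) (fun g => by
    refine (norm_mul_le _ _).trans (mul_le_mul ?_ (hρn g) (norm_nonneg _) (by positivity))
    exact (norm_mul_le _ _).trans (mul_le_mul (hρn g) hXn (norm_nonneg _) zero_le_one))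
  have hQ1 : ‖Q - 1‖ ≤ 3 * a := by
    refine hQ.norm_sub 1 _ fun g => ?_
    have e : ρ g * X * ρ g - 1 = ρ g * (X - 1) * ρ g := by
      rw [mul_sub, sub_mul, mul_one, hρρ]
    rw [e]
    have h1 : ‖ρ g * (X - 1)‖ ≤ 1 * (3 * a) :=
      (norm_mul_le _ _).trans (mul_le_mul (hρn g) hX1 (norm_nonneg _) zero_le_one)
    have h2 : ‖ρ g * (X - 1) * ρ g‖ ≤ 1 * (3 * a) * 1 :=
      (norm_mul_le _ _).trans (mul_le_mul h1 (hρn g) (norm_nonneg _) (by positivity))
    linarith
  have hQs : star Q = Q := by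
    refine (IsMn.congr hQ.star fun g => ?_).unique hQ
    rw [star_mul, star_mul, hρs, hXs, mul_assoc]
  have hQρ : ∀ t, ρ t * Q = Q * ρ t := by
    intro t
    refine (IsMn.congr (hQ.mulLeft (ρ t)) fun g => ?_).unique ((hQ.shift hg t).mulRight (ρ t))
    have e1 : ρ (t * g) * ρ t = ρ g := by rw [← hρ, mul_comm t g, mul_assoc, hg, mul_one]
    rw [mul_assoc (ρ (t * g) * X), e1, hρ]
    noncomm_ring
  obtain ⟨P, hP⟩ : ∃ P : H →L[ℂ] H, P = star T' * Q * T' := ⟨_, rfl⟩
  have hPs : star P = P := by rw [hP, star_mul, star_mul, star_star, hQs, mul_assoc]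
  have hPW : P ∈ W := by
    rw [hP]
    refine ((hQ.mulLeft (star T')).mulRight T').mem W fun g => ?_
    have e : star T' * (ρ g * X * ρ g) * T' = star (T * ρ g * T') * (T * ρ g * T') := by
      rw [star_mul, star_mul, hρs, hX]
      noncomm_ring
    rw [e]
    exact mul_mem (star_mem (hW g)) (hW g)
  have hP1 : ‖P - 1‖ ≤ 7 * a := by
    have e : P - 1 = star T' * (Q - 1) * T' + (star T' * T' - 1) := by
      rw [hP]; noncomm_ring
    rw [e]
    have h1 : ‖star T' * (Q - 1)‖ ≤ (1 + a) * (3 * a) := (norm_mul_le _ _).trans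
      (mul_le_mul (by rw [norm_star]; exact nT') hQ1 (norm_nonneg _) (by positivity))
    have h2 : ‖star T' * (Q - 1) * T'‖ ≤ (1 + a) * (3 * a) * (1 + a) :=
      (norm_mul_le _ _).trans (mul_le_mul h1 nT' (norm_nonneg _) (by positivity))
    have h3 := sq1 T' n2
    refine (norm_add_le _ _).trans ?_
    have k0 : a * a ≤ 2 / 100 * a := mul_le_mul_of_nonneg_right ha1 ha0.le
    have k1 : (1 + a) * (1 + a) ≤ 1.2 := by nlinarith
    have k2 : (1 + a) * (3 * a) * (1 + a) ≤ 3 * a * 1.2 := by
      have : (1 + a) * (3 * a) * (1 + a) = 3 * a * ((1 + a) * (1 + a)) := by ring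
      rw [this]
      exact mul_le_mul_of_nonneg_left k1 (by positivity)
    linarith
  obtain ⟨p, hps, hpp, hp1, hpc⟩ := sqrt_near P hPs (7 * a) (by linarith) hP1
  obtain ⟨s, hss, hsq, hs1, hsc⟩ := sqrt_near Q hQs (3 * a) (by linarith) hQ1
  obtain ⟨p', pp', p'p, hp'1⟩ := inv_near p (7 * a) (by linarith) hp1
  obtain ⟨s', ss', s's, hs'1⟩ := inv_near s (3 * a) (by linarith) hs1
  have hs's : star s' = s' := by
    have h1 : star s' * s = 1 := by
      have := congrArg star ss'
      rw [star_mul, hss, star_one] at this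
      exact this
    calc star s' = star s' * (s * s') := by rw [ss', mul_one]
      _ = (star s' * s) * s' := by rw [mul_assoc]
      _ = s' := by rw [h1, one_mul]
  have hTT : star T * star T' = 1 := by rw [← star_mul, tt', star_one]
  -- the key identity
  have hXX : T * s' * s' * star T = p' * p' := by
    have h1 : T * s' * s' * star T * (p * p) = 1 := by
      rw [hpp, hP, ← hsq]
      calc T * s' * s' * star T * (star T' * (s * s) * T')
          = T * s' * s' * (star T * star T') * s * s * T' := by noncomm_ring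
        _ = T * s' * (s' * s) * s * T' := by rw [hTT, mul_one]; simp only [mul_assoc]
        _ = T * T' := by rw [s's, mul_one, mul_assoc T s' s, s's, mul_one]
        _ = 1 := tt
    calc T * s' * s' * star T = T * s' * s' * star T * (p * (p * p') * p') := by
          rw [pp', mul_one, pp', mul_one]
      _ = (T * s' * s' * star T * (p * p)) * (p' * p') := by noncomm_ring
      _ = p' * p' := by rw [h1, one_mul]
  have hsw : star (p * T * s') = s' * star T * p := by
    rw [star_mul, star_mul, hs's, hps, mul_assoc]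
  have hww : p * T * s' * star (p * T * s') = 1 := by
    rw [hsw]
    calc p * T * s' * (s' * star T * p) = p * (T * s' * s' * star T) * p := by noncomm_ring
      _ = (p * p') * (p' * p) := by rw [hXX]; noncomm_ring
      _ = 1 := by rw [pp', p'p, one_mul]
  refine ⟨p * T * s', hww, ?_, ?_, ?_, ?_⟩
  · rw [hsw]
    calc s' * star T * p * (p * T * s') = s' * star T * (p * p) * T * s' := by noncomm_ring
      _ = s' * (star T * star T') * Q * (T' * T) * s' := by rw [hpp, hP]; noncomm_ring
      _ = (s' * s) * (s * s') := by rw [hTT, tt', ← hsq]; noncomm_ring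
      _ = 1 := by rw [s's, ss', one_mul]
  · have e : p * T * s' - 1 = (p - 1) * T * s' + (T - 1) * s' + (s' - 1) := by noncomm_ring
    have ns' : ‖s'‖ ≤ 1 + 6 * a := norm_le_of_sub_one s' _ (by linarith)
    have h1 : ‖(p - 1) * T‖ ≤ 7 * a * (1 + a) :=
      (norm_mul_le _ _).trans (mul_le_mul hp1 nT (norm_nonneg _) (by positivity))
    have h2 : ‖(p - 1) * T * s'‖ ≤ 7 * a * (1 + a) * (1 + 6 * a) :=
      (norm_mul_le _ _).trans (mul_le_mul h1 ns' (norm_nonneg _) (by positivity))
    have h3 : ‖(T - 1) * s'‖ ≤ a * (1 + 6 * a) :=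
      (norm_mul_le _ _).trans (mul_le_mul n1 ns' (norm_nonneg _) (by positivity))
    have h4 := norm_add_le ((p - 1) * T * s' + (T - 1) * s') (s' - 1)
    have h5 := norm_add_le ((p - 1) * T * s') ((T - 1) * s')
    rw [e]
    have k0 : a * a ≤ 2 / 100 * a := mul_le_mul_of_nonneg_right ha1 ha0.le
    have k1 : (1 + a) * (1 + 6 * a) ≤ 1.2 := by nlinarith
    have h6 : 7 * a * (1 + a) * (1 + 6 * a) ≤ 8.5 * a := by
      have k2 : 7 * a * (1 + a) * (1 + 6 * a) = 7 * a * ((1 + a) * (1 + 6 * a)) := by ring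
      have k3 : 7 * a * ((1 + a) * (1 + 6 * a)) ≤ 7 * a * 1.2 :=
        mul_le_mul_of_nonneg_left k1 (by positivity)
      linarith
    have h7 : a * (1 + 6 * a) ≤ 1.5 * a := by nlinarith
    have h8 : (16 : ℝ) * a ≤ 400 * ε := by rw [ha]; linarith
    linarith
  · intro g
    rw [hsw]
    have c1 : ρ g * s = s * ρ g := hsc (ρ g) (hQρ g)
    have c2 : ρ g * s' = s' * ρ g := comm_inv ss' s's c1
    have e1 : s' * s' * star T * p = T' * p' := by
      have h1 : p * T * (s' * s' * star T * p) = 1 := by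
        rw [← hww, hsw]
        noncomm_ring
      calc s' * s' * star T * p = (T' * T) * (s' * s' * star T * p) := by rw [tt', one_mul]
        _ = T' * (p' * p) * T * (s' * s' * star T * p) := by rw [p'p]; noncomm_ring
        _ = T' * p' * (p * T * (s' * s' * star T * p)) := by noncomm_ring
        _ = T' * p' := by rw [h1, mul_one]
    have e2 : p * T * s' * ρ g * (s' * star T * p) = p * (T * ρ g * T') * p' := by
      calc p * T * s' * ρ g * (s' * star T * p) = p * T * (s' * ρ g) * (s' * star T * p) := by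
            noncomm_ring
        _ = p * T * ρ g * (s' * s' * star T * p) := by rw [← c2]; noncomm_ring
        _ = p * (T * ρ g * T') * p' := by rw [e1]; noncomm_ring
    rw [e2]
    have hpW : p ∈ W := mem_of_comm W P p hPW hpc
    have hp'W : p' ∈ W := mem_of_comm W p p' hpW fun b hb => comm_inv pp' p'p hb
    exact mul_mem (mul_mem hpW (hW g)) hp'W
  · intro b hb
    have b1 : b * T = T * b := hB b hb
    have bs := hBs b hb
    have b2 : b * star T = star T * b := by
      have := congrArg star b1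
      rw [star_mul, star_mul, bs] at this
      exact this.symm
    have b3 : b * T' = T' * b := comm_inv tt tt' b1
    have b4 : b * star T' = star T' * b := by
      have := congrArg star b3
      rw [star_mul, star_mul, bs] at this
      exact this.symm
    have b5 : b * X = X * b := by rw [hX, ← mul_assoc, b2, mul_assoc, b1, mul_assoc]
    have b6 : b * Q = Q * b := hQ.comm b fun g => by
      calc b * (ρ g * X * ρ g) = (b * ρ g) * X * ρ g := by noncomm_ring
        _ = ρ g * (b * X) * ρ g := by rw [hBρ b hb]; noncomm_ring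
        _ = ρ g * X * (b * ρ g) := by rw [b5]; noncomm_ring
        _ = ρ g * X * ρ g * b := by rw [hBρ b hb]; noncomm_ring
    have b7 : b * P = P * b := by
      rw [hP]
      calc b * (star T' * Q * T') = (b * star T') * Q * T' := by noncomm_ring
        _ = star T' * (b * Q) * T' := by rw [b4]; noncomm_ring
        _ = star T' * Q * (b * T') := by rw [b6]; noncomm_ring
        _ = star T' * Q * T' * b := by rw [b3]; noncomm_ring
    have b8 : b * p = p * b := hpc b b7
    have b9 : b * s' = s' * b := comm_inv ss' s's (hsc b b6)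
    calc b * (p * T * s') = (b * p) * T * s' := by noncomm_ring
      _ = p * (b * T) * s' := by rw [b8]; noncomm_ring
      _ = p * T * (b * s') := by rw [b1]; noncomm_ring
      _ = p * T * s' * b := by rw [b9]; noncomm_ring

end Pool.Agent.TH254.CC
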