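import Mathlib
import Pool.Agent.H372R2.DP.Z2
import Pool.Agent.H666R2.DP.Z1
import Pool.Agent.H759R2.Kad.Assemble4

set_option autoImplicit false
set_option linter.unusedSectionVars false
set_option linter.deprecated false

/-! Von Neumann algebras: centralizers, conjugates, maximal abelian subalgebras. -/

open scoped InnerProductSpace

namespace Pool.Agent.TH254.CC

open H759R2.Kad H710R2.DP

variable {H : Type} [NormedAddCommGroup H] [InnerProductSpace ℂ H] [CompleteSpace H]

/-- the centralizer of `S` and its adjoint -/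
noncomputable def cenV (S : Set (H →L[ℂ] H)) : VonNeumannAlgebra H where
  toStarSubalgebra := StarSubalgebra.centralizer ℂ S
  centralizer_centralizer' := by simp

theorem mem_cenV {S : Set (H →L[ℂ] H)} (hS : ∀ a ∈ S, star a ∈ S) {x : H →L[ℂ] H} :
    x ∈ cenV S ↔ ∀ a ∈ S, a * x = x * a := by
  have e : ((cenV S : VonNeumannAlgebra H) : Set (H →L[ℂ] H)) = (S ∪ star S).centralizer := by
    have : ((cenV S : VonNeumannAlgebra H) : Set (H →L[ℂ] H)) =
        ((StarSubalgebra.centralizer ℂ S : StarSubalgebra ℂ (H →L[ℂ] H)) :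
          Set (H →L[ℂ] H)) := rfl
    rw [this, StarSubalgebra.coe_centralizer]
  have e1 : x ∈ cenV S ↔ x ∈ (S ∪ star S).centralizer := by
    rw [← e]; rfl
  rw [e1, Set.mem_centralizer_iff]
  constructor
  · intro h a ha
    exact h a (Or.inl ha)
  · rintro h a (ha | ha)
    · exact h a ha
    · have h1 := hS _ (Set.mem_star.mp ha)
      rw [star_star] at h1
      exact h a h1

theorem vn_star (M : VonNeumannAlgebra H) : ∀ a ∈ (M : Set (H →L[ℂ] H)),
    star a ∈ (M : Set (H →L[ℂ] H)) := fun _ ha => star_mem (S := VonNeumannAlgebra H) ha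

theorem vn_smul (M : VonNeumannAlgebra H) (c : ℂ) {a : H →L[ℂ] H} (ha : a ∈ M) : c • a ∈ M :=
  M.toStarSubalgebra.smul_mem ha c

theorem mem_of_comm_commutant (M : VonNeumannAlgebra H) {x : H →L[ℂ] H}
    (h : ∀ t ∈ M.commutant, t * x = x * t) : x ∈ M := by
  have h1 : x ∈ M.commutant.commutant := VonNeumannAlgebra.mem_commutant_iff.mpr h
  rwa [VonNeumannAlgebra.commutant_commutant] at h1

/-- the von Neumann algebra generated by `S` -/
noncomputable def dcV (S : Set (H →L[ℂ] H)) : VonNeumannAlgebra H :=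
  cenV (cenV S : Set (H →L[ℂ] H))

theorem mem_dcV {S : Set (H →L[ℂ] H)} {x : H →L[ℂ] H} :
    x ∈ dcV S ↔ ∀ a ∈ cenV S, a * x = x * a := mem_cenV (vn_star _)

theorem subset_dcV {S : Set (H →L[ℂ] H)} (hS : ∀ a ∈ S, star a ∈ S) :
    ∀ x ∈ S, x ∈ dcV S := by
  intro x hx
  rw [mem_dcV]
  intro a ha
  exact ((mem_cenV hS).mp ha x hx).symm

theorem dcV_le {S : Set (H →L[ℂ] H)} (hS : ∀ a ∈ S, star a ∈ S) (M : VonNeumannAlgebra H)
    (h : ∀ x ∈ S, x ∈ M) : ∀ x ∈ dcV S, x ∈ M := by
  intro x hx
  refine mem_of_comm_commutant M fun t ht => ?_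
  refine mem_dcV.mp hx t ((mem_cenV hS).mpr fun a ha => ?_)
  exact VonNeumannAlgebra.mem_commutant_iff.mp ht a (h a ha)

theorem dcV_comm {S : Set (H →L[ℂ] H)} (hS : ∀ a ∈ S, star a ∈ S)
    (h : ∀ a ∈ S, ∀ b ∈ S, a * b = b * a) : ∀ a ∈ dcV S, ∀ b ∈ dcV S, a * b = b * a := by
  intro a ha b hb
  have h1 : a ∈ cenV S := by
    rw [mem_cenV hS]
    intro s hs
    refine (mem_dcV.mp ha s ((mem_cenV hS).mpr fun t ht => ?_))
    exact h t ht s hs
  exact mem_dcV.mp hb a h1

theorem span_proj (C : VonNeumannAlgebra H) (hC : ∀ a ∈ C, ∀ b ∈ C, a * b = b * a)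
    (x : H →L[ℂ] H) (hx : x ∈ C) (ε : ℝ) (hε : 0 < ε) :
    ∃ (n : ℕ) (c : Fin n → ℂ) (p : Fin n → (H →L[ℂ] H)), (∀ k, p k ∈ C ∧ IsPr (p k)) ∧
      ‖x - ∑ k, c k • p k‖ ≤ ε := by
  have hspan : Z_span := dp_span (dp_bin prove5_range)
  obtain ⟨n, c, p, h1, h2⟩ := hspan H C x ⟨hx, fun a ha => hC x hx a ha⟩ ε hε
  exact ⟨n, c, p, fun k => ⟨(h1 k).2.1, (h1 k).1⟩, h2⟩

theorem vn_closed (W : VonNeumannAlgebra H) (x : H →L[ℂ] H)
    (h : ∀ ε : ℝ, 0 < ε → ∃ y ∈ W, ‖x - y‖ ≤ ε) : x ∈ W := by
  have h1 : x ∈ closure (W.toStarSubalgebra : Set (H →L[ℂ] H)) := by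
    rw [Metric.mem_closure_iff]
    intro ε hε
    obtain ⟨y, hy, h2⟩ := h (ε / 2) (by linarith)
    refine ⟨y, hy, ?_⟩
    rw [dist_eq_norm]
    linarith
  rw [(vn_isClosed W).closure_eq] at h1
  exact h1

theorem le_of_proj (C W : VonNeumannAlgebra H) (hC : ∀ a ∈ C, ∀ b ∈ C, a * b = b * a)
    (h : ∀ p ∈ C, IsPr p → p ∈ W) : ∀ x ∈ C, x ∈ W := by
  intro x hx
  refine vn_closed W x fun ε hε => ?_
  obtain ⟨n, c, p, h1, h2⟩ := span_proj C hC x hx ε hε
  refine ⟨_, ?_, h2⟩
  exact sum_mem fun k _ => vn_smul W (c k) (h _ (h1 k).1 (h1 k).2)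

/-- every commuting set of projections lies in a maximal abelian subalgebra -/
theorem exists_masa (M : VonNeumannAlgebra H) (P : Set (H →L[ℂ] H))
    (hP : ∀ p ∈ P, p ∈ M ∧ IsPr p) (hPc : ∀ p ∈ P, ∀ q ∈ P, p * q = q * p) :
    ∃ C : VonNeumannAlgebra H, (∀ x ∈ C, x ∈ M) ∧ (∀ p ∈ P, p ∈ C) ∧
      (∀ a ∈ C, ∀ b ∈ C, a * b = b * a) ∧ ∀ x ∈ M, (∀ c ∈ C, c * x = x * c) → x ∈ C := by
  obtain ⟨S, hPS, hS⟩ := zorn_subset_nonempty
    {S : Set (H →L[ℂ] H) | (∀ p ∈ S, p ∈ M ∧ IsPr p) ∧ ∀ p ∈ S, ∀ q ∈ S, p * q = q * p}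
    (by
      intro c hc hch hne
      refine ⟨⋃₀ c, ⟨?_, ?_⟩, fun s hs => Set.subset_sUnion_of_mem hs⟩
      · rintro p ⟨s, hs, hps⟩
        exact (hc hs).1 p hps
      · rintro p ⟨s, hs, hps⟩ q ⟨t, ht, hqt⟩
        rcases hch.total hs ht with h | h
        · exact (hc ht).2 p (h hps) q hqt
        · exact (hc hs).2 p hps q (h hqt)) P ⟨hP, hPc⟩
  have hS1 : (∀ p ∈ S, p ∈ M ∧ IsPr p) ∧ ∀ p ∈ S, ∀ q ∈ S, p * q = q * p := hS.prop
  have hSs : ∀ a ∈ S, star a ∈ S := fun a ha => by rw [(hS1.1 a ha).2.1]; exact ha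
  have hCc := dcV_comm hSs hS1.2
  have hCM := dcV_le hSs M fun x hx => (hS1.1 x hx).1
  have key : ∀ x ∈ M, star x = x → (∀ c ∈ dcV S, c * x = x * c) → x ∈ dcV S := by
    intro x hx hxs hxc
    have hTs : ∀ a ∈ insert x S, star a ∈ insert x S := by
      rintro a (rfl | ha)
      · rw [hxs]; exact Or.inl rfl
      · exact Or.inr (hSs a ha)
    have hTc : ∀ a ∈ insert x S, ∀ b ∈ insert x S, a * b = b * a := by
      rintro a (rfl | ha) b (rfl | hb)
      · rfl
      · exact (hxc b (subset_dcV hSs b hb)).symm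
      · exact hxc a (subset_dcV hSs a ha)
      · exact hS1.2 a ha b hb
    refine le_of_proj (dcV (insert x S)) (dcV S) (dcV_comm hTs hTc) ?_ x
      (subset_dcV hTs x (Or.inl rfl))
    intro p hp hpp
    have hpM : p ∈ M := dcV_le hTs M (by
      rintro a (rfl | ha)
      · exact hx
      · exact (hS1.1 a ha).1) p hp
    have hpc : ∀ s ∈ S, p * s = s * p := fun s hs =>
      dcV_comm hTs hTc p hp s (subset_dcV hTs s (Or.inr hs))
    have h2 : insert p S ∈ {S : Set (H →L[ℂ] H) | (∀ p ∈ S, p ∈ M ∧ IsPr p) ∧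
        ∀ p ∈ S, ∀ q ∈ S, p * q = q * p} := by
      constructor
      · rintro a (rfl | ha)
        · exact ⟨hpM, hpp⟩
        · exact hS1.1 a ha
      · rintro a (rfl | ha) b (rfl | hb)
        · rfl
        · exact hpc b hb
        · exact (hpc a ha).symm
        · exact hS1.2 a ha b hb
    have h3 := hS.le_of_ge h2 (Set.subset_insert p S)
    exact subset_dcV hSs p (h3 (Or.inl rfl))
  refine ⟨dcV S, hCM, fun p hp => subset_dcV hSs p (hPS hp), hCc, ?_⟩
  intro x hx hxc
  have hxc' : ∀ c ∈ dcV S, c * star x = star x * c := by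
    intro c hc
    have h1 := congrArg star (hxc (star c) (star_mem hc))
    rw [star_mul, star_mul, star_star] at h1
    exact h1.symm
  have ha : (1 / 2 : ℂ) • (x + star x) ∈ dcV S := by
    refine key _ (vn_smul M _ (add_mem hx (star_mem hx))) ?_ ?_
    · rw [star_smul, star_add, star_star, add_comm]
      congr 1
      simp
    · intro c hc
      rw [mul_smul_comm, smul_mul_assoc, mul_add, add_mul, hxc c hc, hxc' c hc]
  have hb : (-Complex.I / 2 : ℂ) • (x - star x) ∈ dcV S := by
    refine key _ (vn_smul M _ (sub_mem hx (star_mem hx))) ?_ ?_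
    · rw [star_smul, star_sub, star_star, ← neg_sub x (star x), smul_neg, ← neg_smul]
      congr 1
      simp [neg_div]
    · intro c hc
      rw [mul_smul_comm, smul_mul_assoc, mul_sub, sub_mul, hxc c hc, hxc' c hc]
  have e : x = (1 / 2 : ℂ) • (x + star x) +
      Complex.I • ((-Complex.I / 2 : ℂ) • (x - star x)) := by
    rw [smul_smul]
    have : Complex.I * (-Complex.I / 2) = 1 / 2 := by
      rw [← mul_div_assoc, mul_neg, Complex.I_mul_I, neg_neg]
    rw [this, ← smul_add, add_add_sub_cancel, ← two_smul ℂ x, smul_smul]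
    norm_num
  rw [e]
  exact add_mem ha (vn_smul _ _ hb)

/-- the conjugate algebra, `w⋆ N w` -/
noncomputable def cj (w : H →L[ℂ] H) (N : VonNeumannAlgebra H) : VonNeumannAlgebra H :=
  cenV {y | w * y * star w ∈ N.commutant}

theorem mem_cj {w : H →L[ℂ] H} (hw : w * star w = 1) (hw' : star w * w = 1)
    {N : VonNeumannAlgebra H} {x : H →L[ℂ] H} : x ∈ cj w N ↔ w * x * star w ∈ N := by
  unfold cj
  rw [mem_cenV (by
    intro a ha
    have ha' : w * a * star w ∈ N.commutant := ha
    have h1 := star_mem ha'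
    rw [star_mul, star_mul, star_star, ← mul_assoc] at h1
    exact h1)]
  constructor
  · intro h
    refine mem_of_comm_commutant N fun t ht => ?_
    have h1 := h (star w * t * w) (by
      have e : w * (star w * t * w) * star w = t := by
        calc w * (star w * t * w) * star w = (w * star w) * t * (w * star w) := by noncomm_ring
          _ = t := by rw [hw, one_mul, mul_one]
      show w * (star w * t * w) * star w ∈ N.commutant
      rw [e]
      exact ht)
    calc t * (w * x * star w) = (w * star w) * t * w * x * star w := by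
          rw [hw]; noncomm_ring
      _ = w * (star w * t * w * x) * star w := by noncomm_ring
      _ = w * (x * (star w * t * w)) * star w := by rw [h1]
      _ = w * x * star w * t * (w * star w) := by noncomm_ring
      _ = w * x * star w * t := by rw [hw, mul_one]
  · intro h y hy
    have h1 : (w * x * star w) * (w * y * star w) = (w * y * star w) * (w * x * star w) :=
      VonNeumannAlgebra.mem_commutant_iff.mp hy _ h
    calc y * x = (star w * w) * y * (star w * w) * x * (star w * w) := by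
          rw [hw']; simp only [one_mul, mul_one]
      _ = star w * ((w * y * star w) * (w * x * star w)) * w := by noncomm_ring
      _ = star w * ((w * x * star w) * (w * y * star w)) * w := by rw [h1]
      _ = (star w * w) * x * (star w * w) * y * (star w * w) := by noncomm_ring
      _ = x * y := by rw [hw']; simp only [one_mul, mul_one]

theorem mem_cj_commutant {w : H →L[ℂ] H} (hw : w * star w = 1) (hw' : star w * w = 1)
    {N : VonNeumannAlgebra H} {t : H →L[ℂ] H} :
    t ∈ (cj w N).commutant ↔ w * t * star w ∈ N.commutant := by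
  rw [VonNeumannAlgebra.mem_commutant_iff, VonNeumannAlgebra.mem_commutant_iff]
  constructor
  · intro h a ha
    have h1 := h (star w * a * w) (by
      rw [mem_cj hw hw']
      have e : w * (star w * a * w) * star w = a := by
        calc w * (star w * a * w) * star w = (w * star w) * a * (w * star w) := by noncomm_ring
          _ = a := by rw [hw, one_mul, mul_one]
      rw [e]
      exact ha)
    calc a * (w * t * star w) = (w * star w) * a * w * t * star w := by
          rw [hw]; noncomm_ring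
      _ = w * (star w * a * w * t) * star w := by noncomm_ring
      _ = w * (t * (star w * a * w)) * star w := by rw [h1]
      _ = w * t * star w * a * (w * star w) := by noncomm_ring
      _ = w * t * star w * a := by rw [hw, mul_one]
  · intro h x hx
    rw [mem_cj hw hw'] at hx
    have h1 := h _ hx
    calc x * t = (star w * w) * x * (star w * w) * t * (star w * w) := by
          rw [hw']; simp only [one_mul, mul_one]
      _ = star w * ((w * x * star w) * (w * t * star w)) * w := by noncomm_ring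
      _ = star w * ((w * t * star w) * (w * x * star w)) * w := by rw [h1]
      _ = (star w * w) * t * (star w * w) * x * (star w * w) := by noncomm_ring
      _ = t * x := by rw [hw']; simp only [one_mul, mul_one]

end Pool.Agent.TH254.CC
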