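import Mathlib
import Pool.Agent.TH254.CC.Vn
import Pool.Agent.TH254.CC.Kaz3

set_option autoImplicit false
set_option linter.unusedSectionVars false
set_option linter.deprecated false

/-! Normal traces and projections. -/

open scoped InnerProductSpace ComplexOrder

namespace Pool.Agent.TH254.CC

open H759R2.Kad H710R2.DP

variable {H : Type} [NormedAddCommGroup H] [InnerProductSpace ℂ H] [CompleteSpace H]

/-- the functional `x ↦ ∑ₖ ⟪ξₖ, x ξₖ⟫` -/
noncomputable def tr (ξ : ℕ → H) (x : H →L[ℂ] H) : ℂ := ∑' k, ⟪ξ k, x (ξ k)⟫_ℂ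

theorem tr_summable {ξ : ℕ → H} (hs : Summable fun k => ‖ξ k‖ ^ 2) (x : H →L[ℂ] H) :
    Summable fun k => ⟪ξ k, x (ξ k)⟫_ℂ := by
  refine Summable.of_norm_bounded (g := fun k => ‖x‖ * ‖ξ k‖ ^ 2) (hs.mul_left _) fun k => ?_
  calc ‖⟪ξ k, x (ξ k)⟫_ℂ‖ ≤ ‖ξ k‖ * ‖x (ξ k)‖ := norm_inner_le_norm _ _
    _ ≤ ‖ξ k‖ * (‖x‖ * ‖ξ k‖) := by gcongr; exact x.le_opNorm _
    _ = ‖x‖ * ‖ξ k‖ ^ 2 := by ring

theorem tr_add {ξ : ℕ → H} (hs : Summable fun k => ‖ξ k‖ ^ 2) (x y : H →L[ℂ] H) :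
    tr ξ (x + y) = tr ξ x + tr ξ y := by
  unfold tr
  rw [← (tr_summable hs x).tsum_add (tr_summable hs y)]
  simp [inner_add_right]

theorem tr_smul {ξ : ℕ → H} (c : ℂ) (x : H →L[ℂ] H) : tr ξ (c • x) = c * tr ξ x := by
  unfold tr
  rw [← tsum_mul_left]
  simp [inner_smul_right]

theorem tr_sub {ξ : ℕ → H} (hs : Summable fun k => ‖ξ k‖ ^ 2) (x y : H →L[ℂ] H) :
    tr ξ (x - y) = tr ξ x - tr ξ y := by
  have h := tr_smul (ξ := ξ) (-1) y
  rw [sub_eq_add_neg, tr_add hs, sub_eq_add_neg, show -y = (-1 : ℂ) • y by simp, h]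
  ring

theorem tr_zero {ξ : ℕ → H} : tr ξ (0 : H →L[ℂ] H) = 0 := by
  simp [tr]

theorem tr_sum {ξ : ℕ → H} (hs : Summable fun k => ‖ξ k‖ ^ 2) {ι : Type*} (s : Finset ι)
    (f : ι → (H →L[ℂ] H)) : tr ξ (∑ i ∈ s, f i) = ∑ i ∈ s, tr ξ (f i) := by
  classical
  induction s using Finset.induction_on with
  | empty => simp [tr_zero]
  | insert a s ha ih => rw [Finset.sum_insert ha, Finset.sum_insert ha, tr_add hs, ih]

theorem tr_sq {ξ : ℕ → H} (a : H →L[ℂ] H) :
    tr ξ (star a * a) = ((∑' k, ‖a (ξ k)‖ ^ 2 : ℝ) : ℂ) := by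
  unfold tr
  rw [Complex.ofReal_tsum]
  refine tsum_congr fun k => ?_
  have h1 : ⟪ξ k, (star a * a) (ξ k)⟫_ℂ = ⟪a (ξ k), a (ξ k)⟫_ℂ := by
    rw [ContinuousLinearMap.star_eq_adjoint]
    exact ContinuousLinearMap.adjoint_inner_right a (ξ k) (a (ξ k))
  rw [h1, inner_self_eq_norm_sq_to_K]
  norm_cast

theorem tr_sq_nonneg {ξ : ℕ → H} (a : H →L[ℂ] H) : 0 ≤ tr ξ (star a * a) := by
  rw [tr_sq]
  exact_mod_cast tsum_nonneg fun k => by positivity

theorem tr_pr {ξ : ℕ → H} {p : H →L[ℂ] H} (hp : IsPr p) :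
    tr ξ p = ((tr ξ p).re : ℂ) ∧ 0 ≤ (tr ξ p).re := by
  have e : tr ξ p = tr ξ (star p * p) := by rw [hp.1, hp.2]
  rw [e, tr_sq]
  refine ⟨by simp, ?_⟩
  rw [Complex.ofReal_re]
  exact tsum_nonneg fun k => by positivity

/-- `M` is a factor, not finite dimensional, and `x ↦ ∑ₖ ⟪ξₖ, x ξₖ⟫` is a faithful tracial state
on it. -/
structure Fn (M : VonNeumannAlgebra H) (ξ : ℕ → H) : Prop where
  fac : ∀ z ∈ M, (∀ a ∈ M, z * a = a * z) → ∃ c : ℂ, z = c • 1
  inf : ¬ FiniteDimensional ℂ M.toStarSubalgebra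
  sum : Summable fun k => ‖ξ k‖ ^ 2
  one : tr ξ 1 = 1
  comm : ∀ a ∈ M, ∀ b ∈ M, tr ξ (a * b) = tr ξ (b * a)
  faithful : ∀ a ∈ M, tr ξ (star a * a) = 0 → a = 0

theorem Fn.norm_tr {M : VonNeumannAlgebra H} {ξ : ℕ → H} (h : Fn M ξ) (x : H →L[ℂ] H) :
    ‖tr ξ x‖ ≤ ‖x‖ := by
  have h0 : ∑' k, ‖ξ k‖ ^ 2 = 1 := by
    have h1 := tr_sq (ξ := ξ) (1 : H →L[ℂ] H)
    rw [star_one, one_mul, h.one] at h1
    simp only [ContinuousLinearMap.one_apply] at h1
    exact_mod_cast h1.symm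
  calc ‖tr ξ x‖ ≤ ∑' k, ‖x‖ * ‖ξ k‖ ^ 2 := by
        refine tsum_of_norm_bounded (h.sum.mul_left _).hasSum fun k => ?_
        calc ‖⟪ξ k, x (ξ k)⟫_ℂ‖ ≤ ‖ξ k‖ * ‖x (ξ k)‖ := norm_inner_le_norm _ _
          _ ≤ ‖ξ k‖ * (‖x‖ * ‖ξ k‖) := by gcongr; exact x.le_opNorm _
          _ = ‖x‖ * ‖ξ k‖ ^ 2 := by ring
    _ = ‖x‖ := by rw [tsum_mul_left, h0, mul_one]

/-- the trace as a functional on `M` -/
noncomputable def Fn.tau {M : VonNeumannAlgebra H} {ξ : ℕ → H} (h : Fn M ξ) :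
    M.toStarSubalgebra →ₗ[ℂ] ℂ where
  toFun x := tr ξ (x : H →L[ℂ] H)
  map_add' x y := tr_add h.sum _ _
  map_smul' c x := tr_smul _ _

theorem Fn.isII1 {M : VonNeumannAlgebra H} {ξ : ℕ → H} (h : Fn M ξ) : IsII1 M h.tau where
  center := h.fac
  infinite := h.inf
  trace :=
    { one := h.one
      pos := fun a => tr_sq_nonneg (a : H →L[ℂ] H)
      comm := fun a b => h.comm a a.2 b b.2 }
  faithful a ha := Subtype.ext (h.faithful a a.2 ha)

/-! ### Projections -/

theorem pr_sub {q e : H →L[ℂ] H} (hq : IsPr q) (he : IsPr e) (h : q * e = e) : IsPr (q - e) := by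
  have h' : e * q = e := by
    have := congrArg star h
    rwa [star_mul, hq.1, he.1] at this
  refine ⟨by rw [star_sub, hq.1, he.1], ?_⟩
  rw [mul_sub, sub_mul, sub_mul, hq.2, he.2, h, h']
  abel

theorem pr_le {ξ : ℕ → H} (hs : Summable fun k => ‖ξ k‖ ^ 2) {q e : H →L[ℂ] H} (hq : IsPr q)
    (he : IsPr e) (h : q * e = e) : (tr ξ e).re ≤ (tr ξ q).re := by
  have h1 := (tr_pr (ξ := ξ) (pr_sub hq he h)).2
  rw [tr_sub hs, Complex.sub_re] at h1
  linarith

theorem pr_norm {e : H →L[ℂ] H} (he : IsPr e) : ‖e‖ ≤ 1 := by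
  have h1 : ‖e‖ * ‖e‖ = ‖e‖ := by
    have := CStarRing.norm_star_mul_self (x := e)
    rw [he.1, he.2] at this
    exact this.symm
  by_contra h
  push Not at h
  nlinarith

theorem pi_of_pr {v : H →L[ℂ] H} (h : IsPr (star v * v)) : v * (star v * v) = v := by
  have h1 : star (v * (star v * v) - v) * (v * (star v * v) - v) = 0 := by
    rw [star_sub, star_mul, star_mul, star_star]
    have e : (star v * v * star v - star v) * (v * (star v * v) - v) =
        (star v * v) * (star v * v) * (star v * v) - (star v * v) * (star v * v) -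
          (star v * v) * (star v * v) + star v * v := by noncomm_ring
    rw [e, h.2, h.2]
    abel
  have h2 := (CStarRing.star_mul_self_eq_zero_iff _).mp h1
  exact sub_eq_zero.mp h2

theorem pr_of_pi {v : H →L[ℂ] H} (h : v * star v * v = v) : IsPr (star v * v) ∧ IsPr (v * star v) := by
  refine ⟨⟨by rw [star_mul, star_star], ?_⟩, ⟨by rw [star_mul, star_star], ?_⟩⟩
  · calc star v * v * (star v * v) = star v * (v * star v * v) := by noncomm_ring
      _ = star v * v := by rw [h]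
  · calc v * star v * (v * star v) = (v * star v * v) * star v := by noncomm_ring
      _ = v * star v := by rw [h]

/-- comparison of traces through an operator injective on the range of `q` -/
theorem Fn.elem {N : VonNeumannAlgebra H} {ξ : ℕ → H} (h : Fn N ξ) {q q' z : H →L[ℂ] H}
    (hq : IsPr q) (hq' : IsPr q') (hzN : z ∈ N) (h1 : q' * z = z) (h2 : z * q = z)
    (h3 : ∀ v : H, z v = 0 → q v = 0) : (tr ξ q).re ≤ (tr ξ q').re := by
  obtain ⟨v, hv, hpi, hr, hl, hk⟩ := prove5_polar H N (star z) (star_mem hzN)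
  have hpi' : v * star v * v = v := hpi
  obtain ⟨p1, p2⟩ := pr_of_pi hpi'
  have s1 : star z * q' = star z := by
    have := congrArg star h1
    rwa [star_mul, hq'.1] at this
  have s2 : q * star z = star z := by
    have := congrArg star h2
    rwa [star_mul, hq.1] at this
  have a1 : q * v = v := by
    have := hl (1 - q) (by rw [sub_mul, one_mul, s2, sub_self])
    rw [sub_mul, one_mul, sub_eq_zero] at this
    exact this.symm
  have a2 : v * q' = v := by
    have := hk (1 - q') (by rw [mul_sub, mul_one, s1, sub_self])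
    rw [mul_sub, mul_one, sub_eq_zero] at this
    exact this.symm
  have a3 : z * (v * star v) = z := by
    have := congrArg star hr
    rwa [star_mul, star_star, star_mul, star_star] at this
  have a4 : q * (v * star v) = v * star v := by rw [← mul_assoc, a1]
  have a5 : q - v * star v = 0 := by
    ext u
    have b1 : z ((q - v * star v) u) = 0 := by
      have : (z * (q - v * star v)) u = 0 := by
        rw [mul_sub, h2, a3, sub_self]; rfl
      exact this
    have b2 := h3 _ b1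
    have b3 : q * (q - v * star v) = q - v * star v := by rw [mul_sub, hq.2, a4]
    have b4 : (q * (q - v * star v)) u = 0 := b2
    rw [b3] at b4
    simpa using b4
  have a6 : q = v * star v := sub_eq_zero.mp a5
  have a7 : q' * (star v * v) = star v * v := by
    have := congrArg star a2
    rw [star_mul, hq'.1] at this
    rw [← mul_assoc, this]
  rw [a6, h.comm v hv (star v) (star_mem hv)]
  exact pr_le h.sum hq' p1 a7

/-! ### Nearness -/

/-- every element of `M` is near `N` -/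
def Near (M N : VonNeumannAlgebra H) (δ : ℝ) : Prop := ∀ x ∈ M, ∃ y ∈ N, ‖x - y‖ ≤ δ * ‖x‖

theorem near_tr {M N : VonNeumannAlgebra H} {ξ : ℕ → H} (hN : Fn N ξ) {δ η : ℝ}
    (hδ : 0 ≤ δ) (hMN : Near M N δ) {e f v e' f' : H →L[ℂ] H} (hv : v ∈ M)
    (he : IsPr e) (hve : star v * v = e) (hvf : v * star v = f)
    (he' : e' ∈ N) (hf' : f' ∈ N) (pe : IsPr e') (pf : IsPr f') (hee : ‖e - e'‖ ≤ η)
    (hff : ‖f - f'‖ ≤ η) (hη : δ + 3 * η < 1) : (tr ξ e').re ≤ (tr ξ f').re := by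
  have hve1 : v * e = v := by
    have := pi_of_pr (v := v) (by rw [hve]; exact he)
    rwa [hve] at this
  have hfv : f * v = v := by rw [← hvf, mul_assoc, hve, hve1]
  have hfp : IsPr f := by
    rw [← hvf]
    exact (pr_of_pi (v := v) (by rw [mul_assoc, hve, hve1])).2
  have nv : ‖v‖ ≤ 1 := by
    have h1 : ‖v‖ * ‖v‖ ≤ 1 := by
      rw [← CStarRing.norm_star_mul_self, hve]
      exact pr_norm he
    by_contra h
    push Not at h
    nlinarith
  obtain ⟨v₁, hv₁, hvv⟩ := hMN v hv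
  have hvv' : ‖v₁ - v‖ ≤ δ := by
    rw [norm_sub_rev]
    exact hvv.trans (mul_le_of_le_one_right hδ nv)
  have hη0 : 0 ≤ η := (norm_nonneg _).trans hee
  have hzv : ‖f' * v₁ * e' - v‖ ≤ δ + 2 * η := by
    have e1 : f' * v₁ * e' - v = f' * (v₁ - v) * e' + (f' - f) * v * e' + v * (e' - e) := by
      have : f' * (v₁ - v) * e' + (f' - f) * v * e' + v * (e' - e) =
          f' * v₁ * e' - (f * v) * e' + v * e' - v * e := by noncomm_ring
      rw [this, hfv, hve1]
      abel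
    rw [e1]
    have n1 : ‖f' * (v₁ - v) * e'‖ ≤ 1 * δ * 1 := (norm_mul_le _ _).trans
      (mul_le_mul ((norm_mul_le _ _).trans (mul_le_mul (pr_norm pf) hvv' (norm_nonneg _)
        zero_le_one)) (pr_norm pe) (norm_nonneg _) (by positivity))
    have n2 : ‖(f' - f) * v * e'‖ ≤ η * 1 * 1 := (norm_mul_le _ _).trans
      (mul_le_mul ((norm_mul_le _ _).trans (mul_le_mul (by rw [norm_sub_rev]; exact hff) nv
        (norm_nonneg _) hη0)) (pr_norm pe) (norm_nonneg _) (by positivity))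
    have n3 : ‖v * (e' - e)‖ ≤ 1 * η := (norm_mul_le _ _).trans
      (mul_le_mul nv (by rw [norm_sub_rev]; exact hee) (norm_nonneg _) zero_le_one)
    have n4 := norm_add_le (f' * (v₁ - v) * e' + (f' - f) * v * e') (v * (e' - e))
    have n5 := norm_add_le (f' * (v₁ - v) * e') ((f' - f) * v * e')
    linarith
  refine hN.elem pe pf (mul_mem (mul_mem hf' hv₁) he') (by rw [← mul_assoc, ← mul_assoc, pf.2])
    (by rw [mul_assoc, pe.2]) ?_
  intro u hu
  set z : H →L[ℂ] H := f' * v₁ * e' with hz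
  have c1 : z (e' u) = 0 := by
    have : (z * e') u = 0 := by rw [hz, mul_assoc, pe.2, ← hz]; exact hu
    exact this
  have c2 : e' (e' u) = e' u := by
    have : (e' * e') u = e' u := by rw [pe.2]
    exact this
  have c3 : ‖e (e' u)‖ = ‖v (e' u)‖ := by
    have h1 : ‖v (e' u)‖ ^ 2 = ‖e (e' u)‖ ^ 2 := by
      have k1 : ⟪v (e' u), v (e' u)⟫_ℂ = ⟪e' u, (star v * v) (e' u)⟫_ℂ := by
        rw [ContinuousLinearMap.star_eq_adjoint]
        exact (ContinuousLinearMap.adjoint_inner_right v (e' u) (v (e' u))).symm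
      have k2 : ⟪e (e' u), e (e' u)⟫_ℂ = ⟪e' u, (star e * e) (e' u)⟫_ℂ := by
        rw [ContinuousLinearMap.star_eq_adjoint]
        exact (ContinuousLinearMap.adjoint_inner_right e (e' u) (e (e' u))).symm
      rw [he.1, he.2] at k2
      rw [hve] at k1
      have k3 := k1.trans k2.symm
      rw [inner_self_eq_norm_sq_to_K, inner_self_eq_norm_sq_to_K] at k3
      exact_mod_cast k3
    have h2 := congrArg Real.sqrt h1
    rw [Real.sqrt_sq (norm_nonneg _), Real.sqrt_sq (norm_nonneg _)] at h2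
    exact h2.symm
  have c4 : ‖v (e' u)‖ ≤ (δ + 2 * η) * ‖e' u‖ := by
    have : v (e' u) = - ((z - v) (e' u)) := by
      rw [ContinuousLinearMap.sub_apply, c1]
      simp
    rw [this, norm_neg]
    exact (ContinuousLinearMap.le_opNorm _ _).trans
      (mul_le_mul_of_nonneg_right hzv (norm_nonneg _))
  have c5 : ‖(e' - e) (e' u)‖ ≤ η * ‖e' u‖ :=
    (ContinuousLinearMap.le_opNorm _ _).trans
      (mul_le_mul_of_nonneg_right (by rw [norm_sub_rev]; exact hee) (norm_nonneg _))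
  have c6 : ‖e' u‖ ≤ ‖e (e' u)‖ + ‖(e' - e) (e' u)‖ := by
    have : e' u = e (e' u) + (e' - e) (e' u) := by
      rw [ContinuousLinearMap.sub_apply, c2]
      abel
    calc ‖e' u‖ = ‖e (e' u) + (e' - e) (e' u)‖ := by rw [← this]
      _ ≤ _ := norm_add_le _ _
  by_contra hne
  have hpos : 0 < ‖e' u‖ := norm_pos_iff.mpr hne
  rw [c3] at c6
  nlinarith

end Pool.Agent.TH254.CC
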