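import Mathlib
import Pool.Agent.TH254.CC.Tr

set_option autoImplicit false
set_option linter.unusedSectionVars false
set_option linter.deprecated false

/-! Moving an abelian subalgebra into a near von Neumann algebra. -/

open scoped InnerProductSpace ComplexOrder

namespace Pool.Agent.TH254.CC

open H759R2.Kad H710R2.DP

variable {H : Type} [NormedAddCommGroup H] [InnerProductSpace ℂ H] [CompleteSpace H]

/-- the self-adjoint unitaries of `C` -/
def Sy (C : VonNeumannAlgebra H) : Type := {u : H →L[ℂ] H // u ∈ C ∧ star u = u ∧ u * u = 1}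

/-- they form a group when `C` is abelian -/
@[reducible] def syGroup (C : VonNeumannAlgebra H) (hC : ∀ a ∈ C, ∀ b ∈ C, a * b = b * a) :
    CommGroup (Sy C) where
  mul u v := ⟨u.1 * v.1, mul_mem u.2.1 v.2.1, by
    rw [star_mul, u.2.2.1, v.2.2.1, hC _ u.2.1 _ v.2.1], by
    calc u.1 * v.1 * (u.1 * v.1) = u.1 * (v.1 * u.1) * v.1 := by noncomm_ring
      _ = u.1 * (u.1 * v.1) * v.1 := by rw [hC _ u.2.1 _ v.2.1]
      _ = (u.1 * u.1) * (v.1 * v.1) := by noncomm_ring
      _ = 1 := by rw [u.2.2.2, v.2.2.2, one_mul]⟩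
  one := ⟨1, one_mem C, star_one _, one_mul 1⟩
  inv u := u
  mul_assoc u v w := Subtype.ext (mul_assoc u.1 v.1 w.1)
  one_mul u := Subtype.ext (one_mul u.1)
  mul_one u := Subtype.ext (mul_one u.1)
  inv_mul_cancel u := Subtype.ext u.2.2.2
  mul_comm u v := Subtype.ext (hC _ u.2.1 _ v.2.1)

/-- a projection as a self-adjoint unitary -/
theorem sy_of_pr {C : VonNeumannAlgebra H} {p : H →L[ℂ] H} (hp : p ∈ C) (h : IsPr p) :
    (2 : ℂ) • p - 1 ∈ C ∧ star ((2 : ℂ) • p - 1) = (2 : ℂ) • p - 1 ∧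
      ((2 : ℂ) • p - 1) * ((2 : ℂ) • p - 1) = 1 := by
  refine ⟨sub_mem (vn_smul C 2 hp) (one_mem C), ?_, ?_⟩
  · rw [star_sub, star_smul, h.1, star_one]
    simp
  · rw [two_smul ℂ p]
    calc (p + p - 1) * (p + p - 1) =
        p * p + p * p + p * p + p * p - p - p - p - p + 1 := by noncomm_ring
      _ = 1 := by rw [h.2]; abel

theorem pr_of_sy (p : H →L[ℂ] H) : p = (1 / 2 : ℂ) • (((2 : ℂ) • p - 1) + 1) := by
  rw [sub_add_cancel, smul_smul]
  norm_num

theorem kaz_masa (C W : VonNeumannAlgebra H) (hC : ∀ a ∈ C, ∀ b ∈ C, a * b = b * a)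
    (ε : ℝ) (hε0 : 0 < ε) (hε : ε ≤ 1 / 1000) (hn : ∀ u ∈ C, ‖u‖ ≤ 1 → Nr W u ε) :
    ∃ w : H →L[ℂ] H, w * star w = 1 ∧ star w * w = 1 ∧ ‖w - 1‖ ≤ 400 * ε ∧
      ∀ x ∈ C, w * x * star w ∈ W := by
  letI := syGroup C hC
  have hsy : ∀ g : Sy C, star g.1 * g.1 = 1 := fun g => by rw [g.2.2.1, g.2.2.2]
  obtain ⟨w, h1, h2, h3, h4, -⟩ := kaz (G := Sy C) (fun g => Subtype.ext g.2.2.2) W
    (fun g => g.1) rfl (fun _ _ => rfl) (fun g => g.2.2.1) ∅ (fun _ hb => hb.elim)
    (fun _ hb => hb.elim) (fun _ hb => hb.elim) ε hε0 hε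
    (fun g => hn g.1 g.2.1 (norm_le_one_of_sq _ (hsy g)))
  refine ⟨w, h1, h2, h3, ?_⟩
  intro x hx
  have h5 : ∀ y ∈ C, y ∈ cj w W := by
    refine le_of_proj C (cj w W) hC ?_
    intro p hp hpp
    have h6 := sy_of_pr hp hpp
    have h7 : (2 : ℂ) • p - 1 ∈ cj w W := (mem_cj h1 h2).mpr (h4 ⟨_, h6⟩)
    rw [pr_of_sy p]
    exact vn_smul _ _ (add_mem h7 (one_mem _))
  exact (mem_cj h1 h2).mp (h5 x hx)

/-! ### Conjugates -/

theorem norm_of_unitary {w : H →L[ℂ] H} (hw' : star w * w = 1) : ‖w‖ ≤ 1 :=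
  norm_le_one_of_sq w hw'

theorem norm_star_of_unitary {w : H →L[ℂ] H} (hw' : star w * w = 1) : ‖star w‖ ≤ 1 := by
  rw [norm_star]
  exact norm_le_one_of_sq w hw'

theorem conj_near {w : H →L[ℂ] H} (hw : w * star w = 1) (hw' : star w * w = 1) {a : ℝ}
    (ha : ‖w - 1‖ ≤ a) (x : H →L[ℂ] H) : ‖x - w * x * star w‖ ≤ 2 * a * ‖x‖ := by
  have e : x - w * x * star w = (x * (w - 1) - (w - 1) * x) * star w := by
    have : (x * (w - 1) - (w - 1) * x) * star w = x * (w * star w) - w * x * star w := by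
      noncomm_ring
    rw [this, hw, mul_one]
  rw [e]
  have ha0 : 0 ≤ a := (norm_nonneg _).trans ha
  have n1 : ‖x * (w - 1)‖ ≤ ‖x‖ * a := (norm_mul_le _ _).trans (by gcongr)
  have n2 : ‖(w - 1) * x‖ ≤ a * ‖x‖ := (norm_mul_le _ _).trans (by gcongr)
  have n3 := norm_sub_le (x * (w - 1)) ((w - 1) * x)
  have n4 : ‖(x * (w - 1) - (w - 1) * x) * star w‖ ≤ (2 * a * ‖x‖) * 1 :=
    (norm_mul_le _ _).trans (mul_le_mul (by linarith) (norm_star_of_unitary hw')
      (norm_nonneg _) (by positivity))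
  linarith

theorem conj_near' {w : H →L[ℂ] H} (hw : w * star w = 1) (hw' : star w * w = 1) {a : ℝ}
    (ha : ‖w - 1‖ ≤ a) (x : H →L[ℂ] H) : ‖x - star w * x * w‖ ≤ 2 * a * ‖x‖ := by
  have h := conj_near (w := star w) (a := a) (by rw [star_star]; exact hw')
    (by rw [star_star]; exact hw) (by
      have : star w - 1 = star (w - 1) := by rw [star_sub, star_one]
      rw [this, norm_star]
      exact ha) x
  rwa [star_star] at h

theorem Near.conj_right {M N : VonNeumannAlgebra H} {δ a : ℝ} (h : Near M N δ) (hδ : 0 ≤ δ)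
    {w : H →L[ℂ] H} (hw : w * star w = 1) (hw' : star w * w = 1) (ha : ‖w - 1‖ ≤ a) :
    Near M (cj w N) (δ + 2 * a) := by
  intro x hx
  obtain ⟨y, hy, hxy⟩ := h x hx
  refine ⟨star w * y * w, ?_, ?_⟩
  · rw [mem_cj hw hw']
    have e : w * (star w * y * w) * star w = y := by
      calc w * (star w * y * w) * star w = (w * star w) * y * (w * star w) := by noncomm_ring
        _ = y := by rw [hw, one_mul, mul_one]
    rw [e]
    exact hy
  · have e : x - star w * y * w = (x - star w * x * w) + star w * (x - y) * w := by noncomm_ring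
    rw [e]
    have n1 := conj_near' hw hw' ha x
    have n2 : ‖star w * (x - y) * w‖ ≤ 1 * (δ * ‖x‖) * 1 := (norm_mul_le _ _).trans
      (mul_le_mul ((norm_mul_le _ _).trans (mul_le_mul (norm_star_of_unitary hw') hxy
        (norm_nonneg _) zero_le_one)) (norm_of_unitary hw') (norm_nonneg _) (by positivity))
    have n3 := norm_add_le (x - star w * x * w) (star w * (x - y) * w)
    linarith

theorem Near.conj_left {M N : VonNeumannAlgebra H} {δ a : ℝ} (h : Near N M δ) (hδ : 0 ≤ δ)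
    {w : H →L[ℂ] H} (hw : w * star w = 1) (hw' : star w * w = 1) (ha : ‖w - 1‖ ≤ a) :
    Near (cj w N) M (δ + 2 * a) := by
  intro x hx
  rw [mem_cj hw hw'] at hx
  obtain ⟨y, hy, hxy⟩ := h _ hx
  refine ⟨y, hy, ?_⟩
  have nx : ‖w * x * star w‖ ≤ ‖x‖ := by
    have : ‖w * x * star w‖ ≤ 1 * ‖x‖ * 1 := (norm_mul_le _ _).trans
      (mul_le_mul ((norm_mul_le _ _).trans (mul_le_mul (norm_of_unitary hw') le_rfl
        (norm_nonneg _) zero_le_one)) (norm_star_of_unitary hw') (norm_nonneg _) (by positivity))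
    linarith
  have n1 := conj_near hw hw' ha x
  have n2 : ‖w * x * star w - y‖ ≤ δ * ‖x‖ := hxy.trans (by gcongr)
  have n3 := norm_add_le (x - w * x * star w) (w * x * star w - y)
  rw [sub_add_sub_cancel] at n3
  linarith

theorem tr_conj {ξ : ℕ → H} (w x : H →L[ℂ] H) :
    tr (fun k => star w (ξ k)) x = tr ξ (w * x * star w) := by
  unfold tr
  refine tsum_congr fun k => ?_
  have h1 : ⟪star w (ξ k), x (star w (ξ k))⟫_ℂ = ⟪ξ k, w (x (star w (ξ k)))⟫_ℂ := by
    rw [ContinuousLinearMap.star_eq_adjoint, ContinuousLinearMap.adjoint_inner_left]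
  exact h1

theorem Fn.conj {N : VonNeumannAlgebra H} {ξ : ℕ → H} (h : Fn N ξ) {w : H →L[ℂ] H}
    (hw : w * star w = 1) (hw' : star w * w = 1) :
    Fn (cj w N) (fun k => star w (ξ k)) := by
  have e2 : ∀ a b : H →L[ℂ] H, w * (a * b) * star w = (w * a * star w) * (w * b * star w) := by
    intro a b
    calc w * (a * b) * star w = w * a * 1 * b * star w := by noncomm_ring
      _ = w * a * (star w * w) * b * star w := by rw [hw']
      _ = _ := by noncomm_ring
  have e3 : ∀ a : H →L[ℂ] H, star w * (w * a * star w) * w = a := by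
    intro a
    calc star w * (w * a * star w) * w = (star w * w) * a * (star w * w) := by noncomm_ring
      _ = a := by rw [hw', one_mul, mul_one]
  have e4 : ∀ a : H →L[ℂ] H, w * (star w * a * w) * star w = a := by
    intro a
    calc w * (star w * a * w) * star w = (w * star w) * a * (w * star w) := by noncomm_ring
      _ = a := by rw [hw, one_mul, mul_one]
  refine ⟨?_, ?_, ?_, ?_, ?_, ?_⟩
  · intro z hz hzc
    rw [mem_cj hw hw'] at hz
    obtain ⟨c, hc⟩ := h.fac _ hz (by
      intro a ha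
      have h1 := hzc (star w * a * w) ((mem_cj hw hw').mpr (by rw [e4]; exact ha))
      have h2 : w * (z * (star w * a * w)) * star w = w * ((star w * a * w) * z) * star w := by
        rw [h1]
      rw [e2 z (star w * a * w), e2 (star w * a * w) z, e4] at h2
      exact h2)
    refine ⟨c, ?_⟩
    rw [← e3 z, hc, mul_smul_comm, smul_mul_assoc, mul_one, hw']
  · intro hf
    refine h.inf ?_
    let L : N.toStarSubalgebra →ₗ[ℂ] (cj w N).toStarSubalgebra :=
      { toFun := fun x => ⟨star w * (x : H →L[ℂ] H) * w, (mem_cj hw hw').mpr (by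
          rw [e4]; exact x.2)⟩
        map_add' := fun x y => Subtype.ext (by
          show star w * ((x : H →L[ℂ] H) + y) * w = star w * x * w + star w * y * w
          noncomm_ring)
        map_smul' := fun c x => Subtype.ext (by
          show star w * (c • (x : H →L[ℂ] H)) * w = c • (star w * x * w)
          rw [mul_smul_comm, smul_mul_assoc]) }
    refine FiniteDimensional.of_injective L ?_
    intro x y hxy
    have h1 : star w * (x : H →L[ℂ] H) * w = star w * (y : H →L[ℂ] H) * w :=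
      congrArg Subtype.val hxy
    refine Subtype.ext ?_
    rw [← e4 (x : H →L[ℂ] H), h1, e4]
  · refine h.sum.of_nonneg_of_le (fun k => by positivity) fun k => ?_
    have h1 : ‖star w (ξ k)‖ ≤ 1 * ‖ξ k‖ := (ContinuousLinearMap.le_opNorm _ _).trans
      (mul_le_mul_of_nonneg_right (norm_star_of_unitary hw') (norm_nonneg _))
    rw [one_mul] at h1
    exact pow_le_pow_left₀ (norm_nonneg _) h1 2
  · rw [tr_conj, mul_one, hw, h.one]
  · intro a ha b hb
    rw [tr_conj, tr_conj, e2, e2]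
    exact h.comm _ ((mem_cj hw hw').mp ha) _ ((mem_cj hw hw').mp hb)
  · intro a ha h0
    rw [tr_conj, e2] at h0
    have h1 : w * star a * star w = star (w * a * star w) := by
      rw [star_mul, star_mul, star_star, mul_assoc]
    rw [h1] at h0
    have h2 := h.faithful _ ((mem_cj hw hw').mp ha) h0
    rw [← e3 a, h2, mul_zero, zero_mul]

end Pool.Agent.TH254.CC
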