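import Mathlib
import Pool.Agent.TH254.CC.Grp

set_option autoImplicit false
set_option linter.unusedSectionVars false
set_option linter.deprecated false

/-! The commutants of near factors are near. -/

open scoped InnerProductSpace ComplexOrder

namespace Pool.Agent.TH254.CC

open H759R2.Kad H710R2.DP

variable {H : Type} [NormedAddCommGroup H] [InnerProductSpace ℂ H] [CompleteSpace H]

theorem near_commutant {M N : VonNeumannAlgebra H} {ξ : ℕ → H} (hN : Fn N ξ) {δ : ℝ}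
    (hδ : 0 ≤ δ) (hNM : Near N M δ) (x : H →L[ℂ] H) (hx : x ∈ M.commutant) :
    ∃ t ∈ N.commutant, ‖x - t‖ ≤ 216 * 2 ^ 23 * (2 * δ * ‖x‖) := by
  let D : N.toStarSubalgebra →ₗ[ℂ] (H →L[ℂ] H) :=
    { toFun := fun y => x * (y : H →L[ℂ] H) - (y : H →L[ℂ] H) * x
      map_add' := fun y z => by
        show x * ((y : H →L[ℂ] H) + z) - ((y : H →L[ℂ] H) + z) * x = _
        noncomm_ring
      map_smul' := fun c y => by
        show x * (c • (y : H →L[ℂ] H)) - (c • (y : H →L[ℂ] H)) * x = _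
        rw [mul_smul_comm, smul_mul_assoc, ← smul_sub]
        rfl }
  have hD : ∀ y, D y = x * (y : H →L[ℂ] H) - (y : H →L[ℂ] H) * x := fun _ => rfl
  obtain ⟨T, hT, hT2⟩ := class_inner N.toStarSubalgebra (final_class H N hN.tau hN.isII1) H
    N.toStarSubalgebra.subtype D (by
      intro a b
      show x * ((a : H →L[ℂ] H) * b) - ((a : H →L[ℂ] H) * b) * x =
        (a : H →L[ℂ] H) * (x * (b : H →L[ℂ] H) - (b : H →L[ℂ] H) * x) +
          (x * (a : H →L[ℂ] H) - (a : H →L[ℂ] H) * x) * (b : H →L[ℂ] H)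
      noncomm_ring) (2 * δ * ‖x‖) (by positivity) (by
      intro a
      obtain ⟨m, hm, ham⟩ := hNM (a : H →L[ℂ] H) a.2
      have h1 : m * x = x * m := VonNeumannAlgebra.mem_commutant_iff.mp hx m hm
      have e : D a = x * ((a : H →L[ℂ] H) - m) - ((a : H →L[ℂ] H) - m) * x := by
        rw [hD, mul_sub, sub_mul, h1]
        abel
      rw [e]
      have n1 : ‖x * ((a : H →L[ℂ] H) - m)‖ ≤ ‖x‖ * (δ * ‖(a : H →L[ℂ] H)‖) :=
        (norm_mul_le _ _).trans (by gcongr)
      have n2 : ‖((a : H →L[ℂ] H) - m) * x‖ ≤ (δ * ‖(a : H →L[ℂ] H)‖) * ‖x‖ :=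
        (norm_mul_le _ _).trans (by gcongr)
      have n3 := norm_sub_le (x * ((a : H →L[ℂ] H) - m)) (((a : H →L[ℂ] H) - m) * x)
      have n4 : ‖a‖ = ‖(a : H →L[ℂ] H)‖ := rfl
      rw [n4]
      linarith)
  refine ⟨x - T, ?_, by rw [sub_sub_cancel]; exact hT⟩
  rw [VonNeumannAlgebra.mem_commutant_iff]
  intro a ha
  have h1 : x * a - a * x = T * a - a * T := hT2 ⟨a, ha⟩
  have h2 : a * (x - T) - (x - T) * a = (T * a - a * T) - (x * a - a * x) := by noncomm_ring
  rw [h1, sub_self] at h2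
  exact sub_eq_zero.mp h2

end Pool.Agent.TH254.CC
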