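import Mathlib
import Pool.Agent.TH254.CC.Grp

set_option autoImplicit false
set_option linter.unusedSectionVars false
set_option linter.deprecated false

/-! Right multiplications by symmetries of an abelian subalgebra. -/

open scoped InnerProductSpace ComplexOrder

namespace Pool.Agent.TH254.CC

open H759R2.Kad H710R2.DP

variable {H : Type} [NormedAddCommGroup H] [InnerProductSpace ℂ H] [CompleteSpace H]

/-- the closed subspace generated by the vectors `x ζᵢ` -/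
noncomputable def Ks (M : VonNeumannAlgebra H) {n : ℕ} (ζ : Fin n → H) : Submodule ℂ H :=
  (Submodule.span ℂ {y : H | ∃ x ∈ M, ∃ i, y = x (ζ i)}).topologicalClosure

instance (M : VonNeumannAlgebra H) {n : ℕ} (ζ : Fin n → H) : CompleteSpace (Ks M ζ) := by
  unfold Ks
  infer_instance

theorem mem_Ks (M : VonNeumannAlgebra H) {n : ℕ} (ζ : Fin n → H) (x : H →L[ℂ] H) (hx : x ∈ M)
    (i : Fin n) : x (ζ i) ∈ Ks M ζ :=
  Submodule.le_topologicalClosure _ (Submodule.subset_span ⟨x, hx, i, rfl⟩)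

theorem mem_Ks_orth {M : VonNeumannAlgebra H} {n : ℕ} {ζ : Fin n → H} {v : H} :
    v ∈ (Ks M ζ)ᗮ ↔ ∀ x ∈ M, ∀ i, ⟪x (ζ i), v⟫_ℂ = 0 := by
  constructor
  · intro h x hx i
    exact (Submodule.mem_orthogonal _ _).mp h _ (mem_Ks M ζ x hx i)
  · intro h
    unfold Ks
    rw [Submodule.orthogonal_closure, Submodule.mem_orthogonal]
    intro u hu
    induction hu using Submodule.span_induction with
    | mem y hy =>
      obtain ⟨x, hx, i, rfl⟩ := hy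
      exact h x hx i
    | zero => exact inner_zero_left _
    | add a b _ _ ha hb => rw [inner_add_left, ha, hb, add_zero]
    | smul c a _ ha => rw [inner_smul_left, ha, mul_zero]

theorem ext_Ks {M : VonNeumannAlgebra H} {n : ℕ} {ζ : Fin n → H} {A B : H →L[ℂ] H}
    (h1 : ∀ x ∈ M, ∀ i, A (x (ζ i)) = B (x (ζ i))) (h2 : ∀ v ∈ (Ks M ζ)ᗮ, A v = B v) :
    A = B := by
  have h3 : ∀ v ∈ Ks M ζ, A v = B v := by
    intro v hv
    have h4 : Ks M ζ ≤ LinearMap.eqLocus A.toLinearMap B.toLinearMap := by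
      unfold Ks
      refine Submodule.topologicalClosure_minimal _ ?_ ?_
      · rw [Submodule.span_le]
        rintro y ⟨x, hx, i, rfl⟩
        exact h1 x hx i
      · exact isClosed_eq A.continuous B.continuous
    exact h4 hv
  ext v
  have h5 : v = (Ks M ζ).starProjection v + (v - (Ks M ζ).starProjection v) := by abel
  have h6 : (Ks M ζ).starProjection v ∈ Ks M ζ := Submodule.starProjection_apply_mem _ v
  have h7 : v - (Ks M ζ).starProjection v ∈ (Ks M ζ)ᗮ :=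
    Submodule.sub_starProjection_mem_orthogonal v
  rw [h5, map_add, map_add, h3 _ h6, h2 _ h7]

/-- `n` copies of the cyclic modules of the projections `pᵢ` inside `H` -/
structure Fam (M : VonNeumannAlgebra H) (ξ : ℕ → H) {n : ℕ} (p : Fin n → (H →L[ℂ] H))
    (ζ : Fin n → H) : Prop where
  mem : ∀ i, p i ∈ M ∧ IsPr (p i)
  inn : ∀ x ∈ M, ∀ i j, ⟪ζ j, x (ζ i)⟫_ℂ = if i = j then tr ξ (x * p i) else 0

section

variable {M C : VonNeumannAlgebra H} {ξ : ℕ → H} {n : ℕ} {p : Fin n → (H →L[ℂ] H)} {ζ : Fin n → H}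

theorem Fam.orth (hM : Fn M ξ) (hF : Fam M ξ p ζ) (hCM : ∀ x ∈ C, x ∈ M)
    (hC : ∀ a ∈ C, ∀ b ∈ C, a * b = b * a) (hp : ∀ i, p i ∈ C) {c d : H →L[ℂ] H} (hc : c ∈ C)
    (hd : d ∈ C) (hcs : star c = c) (hdc : d * c = 0) {x y : H →L[ℂ] H} (hx : x ∈ M)
    (hy : y ∈ M) (i j : Fin n) : ⟪y (c (ζ j)), x (d (ζ i))⟫_ℂ = 0 := by
  have e1 : ⟪y (c (ζ j)), x (d (ζ i))⟫_ℂ = ⟪ζ j, (star (y * c) * (x * d)) (ζ i)⟫_ℂ := by
    rw [ContinuousLinearMap.star_eq_adjoint]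
    exact (ContinuousLinearMap.adjoint_inner_right (y * c) (ζ j) (x (d (ζ i)))).symm
  have hyc : y * c ∈ M := mul_mem hy (hCM c hc)
  have hxd : x * d ∈ M := mul_mem hx (hCM d hd)
  rw [e1, hF.inn _ (mul_mem (star_mem hyc) hxd)]
  by_cases hij : i = j
  · rw [if_pos hij]
    have e2 : star (y * c) * (x * d) * p i = c * (star y * x * (p i * d)) := by
      rw [star_mul, hcs, mul_assoc _ (x * d), mul_assoc x d, hC d hd _ (hp i)]
      noncomm_ring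
    have e3 : (star y * x * (p i * d)) * c = 0 := by
      rw [mul_assoc, mul_assoc (p i), hdc, mul_zero, mul_zero]
    rw [e2, hM.comm c (hCM c hc) _ (mul_mem (mul_mem (star_mem hy) hx)
      (mul_mem (hF.mem i).1 (hCM d hd))), e3, tr_zero]
  · rw [if_neg hij]

/-- the projection onto the closed span of the vectors `x c ζᵢ` -/
noncomputable def Ec (M : VonNeumannAlgebra H) (ζ : Fin n → H) (c : H →L[ℂ] H) : H →L[ℂ] H :=
  (Ks M (fun i => c (ζ i))).starProjection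

theorem Ec_star (M : VonNeumannAlgebra H) (ζ : Fin n → H) (c : H →L[ℂ] H) :
    star (Ec M ζ c) = Ec M ζ c := isSelfAdjoint_starProjection _

theorem Ec_apply (hM : Fn M ξ) (hF : Fam M ξ p ζ) (hCM : ∀ x ∈ C, x ∈ M)
    (hC : ∀ a ∈ C, ∀ b ∈ C, a * b = b * a) (hp : ∀ i, p i ∈ C) {c : H →L[ℂ] H} (hc : c ∈ C)
    (hcp : IsPr c) {x : H →L[ℂ] H} (hx : x ∈ M) (i : Fin n) :
    Ec M ζ c (x (ζ i)) = x (c (ζ i)) := by
  unfold Ec
  refine Submodule.eq_starProjection_of_mem_orthogonal' (z := x ((1 - c) (ζ i)))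
    (mem_Ks M (fun i => c (ζ i)) x hx i) ?_ ?_
  · rw [mem_Ks_orth]
    intro y hy j
    exact hF.orth hM hCM hC hp hc (sub_mem (one_mem C) hc) hcp.1
      (by rw [sub_mul, one_mul, hcp.2, sub_self]) hx hy i j
  · rw [← map_add]
    congr 1
    simp

theorem Ec_zero (hCM : ∀ x ∈ C, x ∈ M) {c : H →L[ℂ] H} (hc : c ∈ C) {v : H}
    (hv : v ∈ (Ks M ζ)ᗮ) : Ec M ζ c v = 0 := by
  unfold Ec
  refine Submodule.eq_starProjection_of_mem_orthogonal' (z := v) (Submodule.zero_mem _) ?_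
    (by rw [zero_add])
  rw [mem_Ks_orth]
  intro x hx i
  exact (mem_Ks_orth.mp hv) (x * c) (mul_mem hx (hCM c hc)) i

/-- the projection `(1 - u) / 2` -/
theorem sy_half {C : VonNeumannAlgebra H} {u : H →L[ℂ] H}
    (hu : u ∈ C ∧ star u = u ∧ u * u = 1) :
    (1 / 2 : ℂ) • (1 - u) ∈ C ∧ IsPr ((1 / 2 : ℂ) • (1 - u)) := by
  refine ⟨vn_smul C _ (sub_mem (one_mem C) hu.1), ?_, ?_⟩
  · rw [star_smul, star_sub, hu.2.1, star_one]
    congr 1
    simp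
  · rw [smul_mul_smul_comm]
    have : (1 - u) * (1 - u) = (2 : ℂ) • (1 - u) := by
      rw [two_smul]
      calc (1 - u) * (1 - u) = 1 - u - u + u * u := by noncomm_ring
        _ = (1 - u) + (1 - u) := by rw [hu.2.2]; abel
    rw [this, smul_smul]
    norm_num

/-- right multiplication by a symmetry -/
noncomputable def rm (M : VonNeumannAlgebra H) (ζ : Fin n → H) (u : H →L[ℂ] H) : H →L[ℂ] H :=
  1 - (2 : ℂ) • Ec M ζ ((1 / 2 : ℂ) • (1 - u))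

theorem rm_star (M : VonNeumannAlgebra H) (ζ : Fin n → H) (u : H →L[ℂ] H) :
    star (rm M ζ u) = rm M ζ u := by
  unfold rm
  rw [star_sub, star_one, star_smul, Ec_star]
  simp

theorem rm_apply (hM : Fn M ξ) (hF : Fam M ξ p ζ) (hCM : ∀ x ∈ C, x ∈ M)
    (hC : ∀ a ∈ C, ∀ b ∈ C, a * b = b * a) (hp : ∀ i, p i ∈ C) {u : H →L[ℂ] H}
    (hu : u ∈ C ∧ star u = u ∧ u * u = 1) {x : H →L[ℂ] H} (hx : x ∈ M) (i : Fin n) :
    rm M ζ u (x (ζ i)) = x (u (ζ i)) := by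
  obtain ⟨h1, h2⟩ := sy_half hu
  have h3 := Ec_apply hM hF hCM hC hp h1 h2 hx i
  unfold rm
  have h4 : (1 - (2 : ℂ) • Ec M ζ ((1 / 2 : ℂ) • (1 - u))) (x (ζ i)) =
      x (ζ i) - (2 : ℂ) • Ec M ζ ((1 / 2 : ℂ) • (1 - u)) (x (ζ i)) := rfl
  have h5 : x (((1 / 2 : ℂ) • (1 - u)) (ζ i)) = (1 / 2 : ℂ) • (x (ζ i) - x (u (ζ i))) := by
    have : ((1 / 2 : ℂ) • (1 - u)) (ζ i) = (1 / 2 : ℂ) • (ζ i - u (ζ i)) := rfl
    rw [this, map_smul, map_sub]
  rw [h4, h3, h5, smul_smul]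
  norm_num

theorem rm_zero (hCM : ∀ x ∈ C, x ∈ M) {u : H →L[ℂ] H}
    (hu : u ∈ C ∧ star u = u ∧ u * u = 1) {v : H} (hv : v ∈ (Ks M ζ)ᗮ) : rm M ζ u v = v := by
  obtain ⟨h1, -⟩ := sy_half hu
  have h3 := Ec_zero hCM h1 hv
  unfold rm
  have h4 : (1 - (2 : ℂ) • Ec M ζ ((1 / 2 : ℂ) • (1 - u))) v =
      v - (2 : ℂ) • Ec M ζ ((1 / 2 : ℂ) • (1 - u)) v := rfl
  rw [h4, h3, smul_zero, sub_zero]

theorem rm_one (hM : Fn M ξ) (hF : Fam M ξ p ζ) (hCM : ∀ x ∈ C, x ∈ M)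
    (hC : ∀ a ∈ C, ∀ b ∈ C, a * b = b * a) (hp : ∀ i, p i ∈ C) : rm M ζ 1 = 1 := by
  have hu : (1 : H →L[ℂ] H) ∈ C ∧ star (1 : H →L[ℂ] H) = 1 ∧ (1 : H →L[ℂ] H) * 1 = 1 :=
    ⟨one_mem C, star_one _, one_mul 1⟩
  refine ext_Ks (M := M) (ζ := ζ) ?_ ?_
  · intro x hx i
    exact rm_apply hM hF hCM hC hp hu hx i
  · intro v hv
    exact rm_zero hCM hu hv

theorem rm_mul (hM : Fn M ξ) (hF : Fam M ξ p ζ) (hCM : ∀ x ∈ C, x ∈ M)
    (hC : ∀ a ∈ C, ∀ b ∈ C, a * b = b * a) (hp : ∀ i, p i ∈ C) {u v : H →L[ℂ] H}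
    (hu : u ∈ C ∧ star u = u ∧ u * u = 1) (hv : v ∈ C ∧ star v = v ∧ v * v = 1)
    (huv : u * v ∈ C ∧ star (u * v) = u * v ∧ (u * v) * (u * v) = 1) :
    rm M ζ (u * v) = rm M ζ u * rm M ζ v := by
  refine ext_Ks (M := M) (ζ := ζ) ?_ ?_
  · intro x hx i
    rw [rm_apply hM hF hCM hC hp huv hx i]
    have h1 : (rm M ζ u * rm M ζ v) (x (ζ i)) = rm M ζ u (rm M ζ v (x (ζ i))) := rfl
    have h2 : rm M ζ u ((x * v) (ζ i)) = (x * v) (u (ζ i)) :=
      rm_apply hM hF hCM hC hp hu (mul_mem hx (hCM v hv.1)) i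
    rw [h1, rm_apply hM hF hCM hC hp hv hx i]
    have h3 : x (v (ζ i)) = (x * v) (ζ i) := rfl
    rw [h3, h2, hC u hu.1 v hv.1]
    rfl
  · intro w hw
    rw [rm_zero hCM huv hw]
    have h1 : (rm M ζ u * rm M ζ v) w = rm M ζ u (rm M ζ v w) := rfl
    rw [h1, rm_zero hCM hv hw, rm_zero hCM hu hw]

theorem rm_commutant (hM : Fn M ξ) (hF : Fam M ξ p ζ) (hCM : ∀ x ∈ C, x ∈ M)
    (hC : ∀ a ∈ C, ∀ b ∈ C, a * b = b * a) (hp : ∀ i, p i ∈ C) {u : H →L[ℂ] H}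
    (hu : u ∈ C ∧ star u = u ∧ u * u = 1) : rm M ζ u ∈ M.commutant := by
  rw [VonNeumannAlgebra.mem_commutant_iff]
  intro a ha
  refine ext_Ks (M := M) (ζ := ζ) ?_ ?_
  · intro x hx i
    have h1 : (a * rm M ζ u) (x (ζ i)) = a (rm M ζ u (x (ζ i))) := rfl
    have h2 : (rm M ζ u * a) (x (ζ i)) = rm M ζ u ((a * x) (ζ i)) := rfl
    rw [h1, h2, rm_apply hM hF hCM hC hp hu hx i,
      rm_apply hM hF hCM hC hp hu (mul_mem ha hx) i]
    rfl
  · intro v hv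
    have h1 : (a * rm M ζ u) v = a (rm M ζ u v) := rfl
    have h2 : (rm M ζ u * a) v = rm M ζ u (a v) := rfl
    have h3 : a v ∈ (Ks M ζ)ᗮ := by
      rw [mem_Ks_orth]
      intro x hx i
      have h4 := (mem_Ks_orth.mp hv) (star a * x) (mul_mem (star_mem ha) hx) i
      have h5 : ⟪(star a * x) (ζ i), v⟫_ℂ = ⟪x (ζ i), a v⟫_ℂ := by
        rw [ContinuousLinearMap.star_eq_adjoint]
        exact ContinuousLinearMap.adjoint_inner_left a v (x (ζ i))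
      rw [← h5, h4]
    rw [h1, h2, rm_zero hCM hu hv, rm_zero hCM hu h3]

end

end Pool.Agent.TH254.CC
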