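import Mathlib
import Pool.Agent.TH254.CC.Grp

set_option autoImplicit false
set_option linter.unusedSectionVars false
set_option linter.deprecated false

/-! Traces of near projections agree. -/

open scoped InnerProductSpace ComplexOrder

namespace Pool.Agent.TH254.CC

open H759R2.Kad H710R2.DP

variable {H : Type} [NormedAddCommGroup H] [InnerProductSpace ℂ H] [CompleteSpace H]

theorem fcomp : F_comp.{0} := prove5_comp prove5_join prove5_polar prove5_chain

theorem exists_units {M : VonNeumannAlgebra H} {ξ : ℕ → H} (h : Fn M ξ) (k : ℕ) :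
    ∃ e : Fin (2 ^ k) → Fin (2 ^ k) → (H →L[ℂ] H), MU M 1 (2 ^ k) e := by
  have hnomin : F_nomin.{0} := prove5_nomin prove5_range fcomp
  have hhalf : F_half.{0} := prove5_half prove5_chain fcomp hnomin
  have hpow : F_pow.{0} := prove5_pow' (prove5_two hhalf)
  obtain ⟨N, τ', -, ⟨φ⟩⟩ := hpow H M h.tau h.isII1 k
  obtain ⟨E, hE⟩ : ∃ E : Fin (2 ^ k) → Fin (2 ^ k) →
      CStarMatrix (Fin (2 ^ k)) (Fin (2 ^ k)) N.toStarSubalgebra,
      ∀ a b i j, E a b i j = if i = a ∧ j = b then 1 else 0 :=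
    ⟨fun a b => CStarMatrix.ofMatrix (Matrix.of fun i j => if i = a ∧ j = b then 1 else 0),
      fun _ _ _ _ => rfl⟩
  have hmul : ∀ a b c d, E a b * E c d = if b = c then E a d else 0 := by
    intro a b c d
    ext i j
    rw [CStarMatrix.mul_apply, Finset.sum_eq_single b]
    · rw [hE, hE]
      by_cases h1 : b = c
      · rw [if_pos h1, hE]
        by_cases h2 : i = a <;> by_cases h3 : j = d <;> simp [h1, h2, h3]
      · rw [if_neg h1]
        simp [h1]
    · intro l _ hl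
      rw [hE]
      simp [hl]
    · simp
  have hstar : ∀ a b, star (E a b) = E b a := by
    intro a b
    ext i j
    rw [CStarMatrix.star_apply, hE, hE]
    by_cases h2 : i = b <;> by_cases h3 : j = a <;> simp [h2, h3]
  have hsum : ∑ a, E a a = 1 := by
    refine CStarMatrix.ext fun i j => ?_
    have e1 : (∑ a, E a a) i j = ∑ a, E a a i j :=
      map_sum (AddMonoidHom.mk' (fun A : CStarMatrix (Fin (2 ^ k)) (Fin (2 ^ k))
        N.toStarSubalgebra => A i j) (fun _ _ => rfl)) (fun a => E a a) Finset.univ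
    rw [e1, CStarMatrix.one_apply]
    by_cases h2 : i = j
    · subst h2
      rw [Finset.sum_eq_single i]
      · rw [hE]; simp
      · intro b _ hb
        rw [hE]
        simp [Ne.symm hb]
      · simp
    · rw [if_neg h2]
      refine Finset.sum_eq_zero fun a _ => ?_
      rw [hE, if_neg]
      rintro ⟨rfl, rfl⟩
      exact h2 rfl
  have hval : ∀ x y : M.toStarSubalgebra, ((x * y : M.toStarSubalgebra) : H →L[ℂ] H) =
    (x : H →L[ℂ] H) * y := fun _ _ => rfl
  refine ⟨fun a b => (φ.symm (E a b) : M.toStarSubalgebra), ?_, ?_, ?_, ?_⟩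
  · intro i j
    exact (φ.symm (E i j)).2
  · intro i j
    have h1 : star (φ.symm (E i j)) = φ.symm (E j i) := by rw [← map_star, hstar]
    exact congrArg Subtype.val h1
  · intro i j l m
    have h1 : φ.symm (E i j) * φ.symm (E l m) = φ.symm (if j = l then E i m else 0) := by
      rw [← map_mul, hmul]
    have h2 := congrArg Subtype.val h1
    refine (Eq.trans ?_ h2).trans ?_
    · rfl
    · by_cases h3 : j = l
      · rw [if_pos h3, if_pos h3]
      · rw [if_neg h3, if_neg h3, map_zero]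
        rfl
  · have h1 : ∑ a, φ.symm (E a a) = 1 := by rw [← map_sum, hsum, map_one]
    have h2 := congrArg Subtype.val h1
    rw [AddSubmonoidClass.coe_finset_sum] at h2
    exact h2

theorem sum_re {ξ : ℕ → H} (hs : Summable fun k => ‖ξ k‖ ^ 2) {ι : Type*} (s : Finset ι)
    (f : ι → (H →L[ℂ] H)) : (tr ξ (∑ i ∈ s, f i)).re = ∑ i ∈ s, (tr ξ (f i)).re := by
  rw [tr_sum hs, Complex.re_sum]

theorem tr_equal {ξ : ℕ → H} (hs : Summable fun k => ‖ξ k‖ ^ 2) (h1 : tr ξ 1 = 1) {n : ℕ}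
    (f : Fin n → (H →L[ℂ] H)) (hf : ∑ a, f a = 1)
    (h : ∀ a b, (tr ξ (f a)).re ≤ (tr ξ (f b)).re) (a : Fin n) :
    (tr ξ (f a)).re = 1 / n := by
  have h2 : ∑ b, (tr ξ (f b)).re = 1 := by rw [← sum_re hs, hf, h1, Complex.one_re]
  have h3 : ∀ b, (tr ξ (f b)).re = (tr ξ (f a)).re := fun b => le_antisymm (h b a) (h a b)
  simp only [h3, Finset.sum_const, Finset.card_univ, Fintype.card_fin, nsmul_eq_mul] at h2
  have hn : (n : ℝ) ≠ 0 := by
    intro h0
    rw [h0, zero_mul] at h2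
    exact zero_ne_one h2
  field_simp
  linarith

theorem conj_pr {w p : H →L[ℂ] H} (hw' : star w * w = 1) (hp : IsPr p) :
    IsPr (w * p * star w) := by
  refine ⟨by rw [star_mul, star_mul, star_star, hp.1, mul_assoc], ?_⟩
  calc w * p * star w * (w * p * star w) = w * p * (star w * w) * p * star w := by noncomm_ring
    _ = w * (p * p) * star w := by rw [hw', mul_one, mul_assoc w p p]
    _ = w * p * star w := by rw [hp.2]

theorem pr_eq_zero {M : VonNeumannAlgebra H} {ξ : ℕ → H} (h : Fn M ξ) {d : H →L[ℂ] H}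
    (hd : d ∈ M) (hp : IsPr d) (h0 : (tr ξ d).re ≤ 0) : d = 0 := by
  refine h.faithful d hd ?_
  rw [hp.1, hp.2]
  obtain ⟨h1, h2⟩ := tr_pr (ξ := ξ) hp
  have h3 : (tr ξ d).re = 0 := le_antisymm h0 h2
  rw [h1, h3]
  simp

/-- a projection of trace at most that of `q` is equivalent to a subprojection of `q` -/
theorem Fn.comp {M : VonNeumannAlgebra H} {ξ : ℕ → H} (h : Fn M ξ) {p q : H →L[ℂ] H}
    (hpM : p ∈ M) (hqM : q ∈ M) (hp : IsPr p) (hq : IsPr q) (hpq : (tr ξ p).re ≤ (tr ξ q).re) :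
    ∃ v ∈ M, star v * v = p ∧ q * v = v := by
  obtain ⟨v, hv, h1 | ⟨h1, h2⟩⟩ := fcomp H M h.fac p hpM q hqM hp hq
  · exact ⟨v, hv, h1⟩
  have h3 : star v * (v * star v) = star v := by
    have := pi_of_pr (v := star v) (by rw [star_star, h1]; exact hq)
    rwa [star_star] at this
  have h4 : v * star v * v = v := by
    have := congrArg star h3
    rwa [star_mul, star_mul, star_star] at this
  obtain ⟨h5, -⟩ := pr_of_pi h4
  have h6 : p * (star v * v) = star v * v := by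
    have := congrArg star h2
    rw [star_mul, hp.1] at this
    rw [← mul_assoc, this]
  have h7 : p - star v * v = 0 := by
    refine pr_eq_zero h (sub_mem hpM (mul_mem (star_mem hv) hv)) (pr_sub hp h5 h6) ?_
    rw [tr_sub h.sum, h.comm (star v) (star_mem hv) v hv, h1, Complex.sub_re]
    linarith
  refine ⟨v, hv, (sub_eq_zero.mp h7).symm, ?_⟩
  rw [← h1, h4]

theorem tr_le_aux {M N : VonNeumannAlgebra H} {ξ ξ' : ℕ → H} (hM : Fn M ξ) (hN : Fn N ξ')
    {δ : ℝ} (hδ0 : 0 < δ) (hδ : δ ≤ 1 / 100000) (hMN : Near M N δ) {p q : H →L[ℂ] H}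
    (hpM : p ∈ M) (hqN : q ∈ N) (hp : IsPr p) (hq : IsPr q) (hpq : ‖p - q‖ ≤ 1 / 8)
    (k j : ℕ) (hj : j ≤ 2 ^ k) (hjp : (j : ℝ) / 2 ^ k ≤ (tr ξ p).re) :
    (j : ℝ) / 2 ^ k ≤ (tr ξ' q).re := by
  classical
  obtain ⟨e, he⟩ := exists_units hM k
  have hNr : ∀ (C : VonNeumannAlgebra H), (∀ x ∈ C, x ∈ M) → ∀ u ∈ C, ‖u‖ ≤ 1 → Nr N u δ := by
    intro C hC u hu hu1
    obtain ⟨y, hy, hxy⟩ := hMN u (hC u hu)
    exact ⟨y, hy, hxy.trans (mul_le_of_le_one_right hδ0.le hu1)⟩
  have hee : ∀ a b, e a a * e b b = if a = b then e a a else 0 := by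
    intro a b
    rw [he.mul]
    by_cases h : a = b
    · rw [if_pos h, if_pos h, h]
    · rw [if_neg h, if_neg h]
  have hepr : ∀ a, IsPr (e a a) := fun a => ⟨he.adj a a, by rw [hee, if_pos rfl]⟩
  have hclose : ∀ (w x : H →L[ℂ] H), w * star w = 1 → star w * w = 1 → ‖w - 1‖ ≤ 400 * δ →
      IsPr x → ‖x - w * x * star w‖ ≤ 1 / 8 := by
    intro w x h1 h2 h3 h4
    refine (conj_near h1 h2 h3 x).trans ?_
    have := pr_norm h4
    nlinarith [norm_nonneg x]
  -- the first conjugation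
  obtain ⟨C₁, c1, c2, c3, -⟩ := exists_masa M (Set.range fun a => e a a)
    (by rintro _ ⟨a, rfl⟩; exact ⟨he.mem a a, hepr a⟩)
    (by
      rintro _ ⟨a, rfl⟩ _ ⟨b, rfl⟩
      show e a a * e b b = e b b * e a a
      rw [hee, hee]
      by_cases h : a = b
      · rw [if_pos h, if_pos h.symm, h]
      · rw [if_neg h, if_neg (Ne.symm h)])
  obtain ⟨w₁, u1, u2, u3, u4⟩ := kaz_masa C₁ N c3 δ hδ0 (by linarith) (hNr C₁ c1)
  have e'mem : ∀ a, w₁ * e a a * star w₁ ∈ N := fun a => u4 _ (c2 _ ⟨a, rfl⟩)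
  have e'pr : ∀ a, IsPr (w₁ * e a a * star w₁) := fun a => conj_pr u2 (hepr a)
  have htr1 : ∀ a b, (tr ξ' (w₁ * e a a * star w₁)).re ≤ (tr ξ' (w₁ * e b b * star w₁)).re := by
    intro a b
    exact near_tr hN hδ0.le hMN (he.mem b a) (hepr a) (by rw [he.adj, he.mul, if_pos rfl])
      (by rw [he.adj, he.mul, if_pos rfl]) (e'mem a) (e'mem b) (e'pr a) (e'pr b)
      (hclose w₁ _ u1 u2 u3 (hepr a)) (hclose w₁ _ u1 u2 u3 (hepr b)) (by linarith)
  have hval : ∀ a, (tr ξ' (w₁ * e a a * star w₁)).re = 1 / 2 ^ k := by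
    intro a
    have := tr_equal hN.sum hN.one (fun a => w₁ * e a a * star w₁) (by
      rw [← Finset.sum_mul, ← Finset.mul_sum, he.sum, mul_one, u1]) htr1 a
    rw [this]
    push_cast
    rfl
  have hval0 : ∀ a, (tr ξ (e a a)).re = 1 / 2 ^ k := by
    intro a
    have := tr_equal hM.sum hM.one (fun a => e a a) he.sum (by
      intro a b
      have h1 : e a a = e a b * e b a := by rw [he.mul, if_pos rfl]
      have h2 : e b b = e b a * e a b := by rw [he.mul, if_pos rfl]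
      show (tr ξ (e a a)).re ≤ (tr ξ (e b b)).re
      rw [h1, h2, hM.comm _ (he.mem a b) _ (he.mem b a)]) a
    rw [this]
    push_cast
    rfl
  -- the partial sum
  set S : Finset (Fin (2 ^ k)) := Finset.univ.filter fun a => a.val < j with hS
  have hScard : S.card = j := by
    rw [hS, Fin.card_filter_val_lt]
    exact min_eq_right hj
  obtain ⟨E, hE⟩ : ∃ E : H →L[ℂ] H, E = ∑ a ∈ S, e a a := ⟨_, rfl⟩
  have hEe : ∀ a ∈ S, E * e a a = e a a := by
    intro a ha
    rw [hE, Finset.sum_mul, Finset.sum_eq_single a]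
    · rw [hee, if_pos rfl]
    · intro b _ hb
      rw [hee, if_neg hb]
    · intro h; exact absurd ha h
  have hEpr : IsPr E := by
    constructor
    · rw [hE, star_sum]
      exact Finset.sum_congr rfl fun a _ => (hepr a).1
    · conv_lhs => rw [hE, ← hE]
      rw [show E * E = ∑ a ∈ S, E * e a a by rw [← Finset.mul_sum, ← hE]]
      rw [hE]
      refine Finset.sum_congr rfl fun a ha => ?_
      rw [← hE]
      exact hEe a ha
  have hEM : E ∈ M := by
    rw [hE]
    exact sum_mem fun a _ => he.mem a a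
  have hEtr : (tr ξ E).re = (j : ℝ) / 2 ^ k := by
    rw [hE, sum_re hM.sum, Finset.sum_congr rfl fun a _ => hval0 a, Finset.sum_const, hScard,
      nsmul_eq_mul]
    ring
  obtain ⟨v, hvM, hv1, hv2⟩ := hM.comp hEM hpM hEpr hp (by rw [hEtr]; exact hjp)
  have hvE : v * E = v := by
    have := pi_of_pr (v := v) (by rw [hv1]; exact hEpr)
    rwa [hv1] at this
  have eE : ∀ a ∈ S, e a a * E = e a a := by
    intro a ha
    have := congrArg star (hEe a ha)
    rwa [star_mul, hEpr.1, (hepr a).1] at this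
  have hva1 : ∀ a ∈ S, star (v * e a a) * (v * e a a) = e a a := by
    intro a ha
    rw [star_mul, (hepr a).1]
    calc e a a * star v * (v * e a a) = e a a * (star v * v) * e a a := by noncomm_ring
      _ = e a a := by rw [hv1, eE a ha, (hepr a).2]
  obtain ⟨f, hf⟩ : ∃ f : Fin (2 ^ k) → (H →L[ℂ] H), ∀ a, f a = v * e a a * star v :=
    ⟨fun a => v * e a a * star v, fun _ => rfl⟩
  have hva2 : ∀ a, (v * e a a) * star (v * e a a) = f a := by
    intro a
    rw [star_mul, (hepr a).1, hf]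
    calc v * e a a * (e a a * star v) = v * (e a a * e a a) * star v := by noncomm_ring
      _ = v * e a a * star v := by rw [(hepr a).2]
  have hfM : ∀ a, f a ∈ M := fun a => by
    rw [hf]; exact mul_mem (mul_mem hvM (he.mem a a)) (star_mem hvM)
  have hfpr : ∀ a ∈ S, IsPr (f a) := by
    intro a ha
    rw [← hva2 a]
    refine (pr_of_pi ?_).2
    have := pi_of_pr (v := v * e a a) (by rw [hva1 a ha]; exact hepr a)
    rwa [← mul_assoc] at this
  have hpf : ∀ a, p * f a = f a := by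
    intro a
    rw [hf, ← mul_assoc, ← mul_assoc, hv2]
  have hff : ∀ a ∈ S, ∀ b, f a * f b = if a = b then f a else 0 := by
    intro a ha b
    rw [hf, hf]
    have h1 : v * e a a * star v * (v * e b b * star v) =
        v * (e a a * (star v * v)) * e b b * star v := by noncomm_ring
    rw [h1, hv1, eE a ha, mul_assoc v, hee]
    by_cases h : a = b
    · rw [if_pos h, if_pos h]
    · rw [if_neg h, if_neg h, mul_zero, zero_mul]
  have hfp : ∀ a ∈ S, f a * p = f a := by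
    intro a ha
    have := congrArg star (hpf a)
    rwa [star_mul, hp.1, (hfpr a ha).1] at this
  -- the second conjugation
  obtain ⟨C₂, d1, d2, d3, -⟩ := exists_masa M {x | x = p ∨ ∃ a ∈ S, x = f a}
    (by
      rintro x (rfl | ⟨a, ha, rfl⟩)
      · exact ⟨hpM, hp⟩
      · exact ⟨hfM a, hfpr a ha⟩)
    (by
      rintro x (rfl | ⟨a, ha, rfl⟩) y (rfl | ⟨b, hb, rfl⟩)
      · rfl
      · rw [hpf, hfp b hb]
      · rw [hpf, hfp a ha]
      · rw [hff a ha b, hff b hb a]
        by_cases h : a = b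
        · rw [if_pos h, if_pos h.symm, h]
        · rw [if_neg h, if_neg (Ne.symm h)])
  obtain ⟨w₂, x1, x2, x3, x4⟩ := kaz_masa C₂ N d3 δ hδ0 (by linarith) (hNr C₂ d1)
  have f'mem : ∀ a ∈ S, w₂ * f a * star w₂ ∈ N := fun a ha => x4 _ (d2 _ (Or.inr ⟨a, ha, rfl⟩))
  have htr2 : ∀ a ∈ S, 1 / 2 ^ k ≤ (tr ξ' (w₂ * f a * star w₂)).re := by
    intro a ha
    rw [← hval a]
    exact near_tr hN hδ0.le hMN (mul_mem hvM (he.mem a a)) (hepr a) (hva1 a ha) (hva2 a)
      (e'mem a) (f'mem a ha) (e'pr a) (conj_pr x2 (hfpr a ha))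
      (hclose w₁ _ u1 u2 u3 (hepr a)) (hclose w₂ _ x1 x2 x3 (hfpr a ha)) (by linarith)
  have hF : ∑ a ∈ S, f a = v * star v := by
    simp only [hf]
    rw [← Finset.sum_mul, ← Finset.mul_sum, ← hE, hvE]
  have hFpr : IsPr (v * star v) := by
    refine (pr_of_pi ?_).2
    rw [mul_assoc, hv1, hvE]
  have h5 : (j : ℝ) / 2 ^ k ≤ (tr ξ' (w₂ * (v * star v) * star w₂)).re := by
    rw [← hF, Finset.mul_sum, Finset.sum_mul, sum_re hN.sum]
    calc (j : ℝ) / 2 ^ k = ∑ a ∈ S, (1 / 2 ^ k : ℝ) := by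
          rw [Finset.sum_const, hScard, nsmul_eq_mul]
          ring
      _ ≤ _ := Finset.sum_le_sum htr2
  have h6 : (tr ξ' (w₂ * (v * star v) * star w₂)).re ≤ (tr ξ' (w₂ * p * star w₂)).re := by
    refine pr_le hN.sum (conj_pr x2 hp) (conj_pr x2 hFpr) ?_
    calc w₂ * p * star w₂ * (w₂ * (v * star v) * star w₂) =
        w₂ * p * (star w₂ * w₂) * v * star v * star w₂ := by noncomm_ring
      _ = w₂ * (p * v) * star v * star w₂ := by rw [x2, mul_one]; noncomm_ring
      _ = w₂ * (v * star v) * star w₂ := by rw [hv2]; noncomm_ring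
  have h7 : (tr ξ' (w₂ * p * star w₂)).re ≤ (tr ξ' q).re := by
    refine near_tr hN hδ0.le hMN hpM hp (by rw [hp.1, hp.2]) (by rw [hp.1, hp.2])
      (x4 _ (d2 _ (Or.inl rfl))) hqN (conj_pr x2 hp) hq (hclose w₂ _ x1 x2 x3 hp) hpq
      (by linarith)
  linarith

theorem tr_le {M N : VonNeumannAlgebra H} {ξ ξ' : ℕ → H} (hM : Fn M ξ) (hN : Fn N ξ')
    {δ : ℝ} (hδ0 : 0 < δ) (hδ : δ ≤ 1 / 100000) (hMN : Near M N δ) {p q : H →L[ℂ] H}
    (hpM : p ∈ M) (hqN : q ∈ N) (hp : IsPr p) (hq : IsPr q) (hpq : ‖p - q‖ ≤ 1 / 8) :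
    (tr ξ p).re ≤ (tr ξ' q).re := by
  by_contra hlt
  push Not at hlt
  obtain ⟨k, hk⟩ := exists_pow_lt_of_lt_one (sub_pos.mpr hlt) (by norm_num : (1 / 2 : ℝ) < 1)
  have h0 : 0 ≤ (tr ξ p).re := (tr_pr hp).2
  have h1 : (tr ξ p).re ≤ 1 := by
    have := pr_le (ξ := ξ) hM.sum (q := 1) (e := p) ⟨star_one _, one_mul 1⟩ hp (one_mul p)
    rwa [hM.one, Complex.one_re] at this
  have hpos : (0 : ℝ) < 2 ^ k := by positivity
  have h2 : ((⌊(tr ξ p).re * 2 ^ k⌋₊ : ℕ) : ℝ) ≤ (tr ξ p).re * 2 ^ k :=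
    Nat.floor_le (by positivity)
  have h3 : (tr ξ p).re * 2 ^ k < (⌊(tr ξ p).re * 2 ^ k⌋₊ : ℕ) + 1 := Nat.lt_floor_add_one _
  have h4 : ⌊(tr ξ p).re * 2 ^ k⌋₊ ≤ 2 ^ k := by
    refine Nat.floor_le_of_le ?_
    push_cast
    nlinarith
  have h5 := tr_le_aux hM hN hδ0 hδ hMN hpM hqN hp hq hpq k _ h4 (by
    rw [div_le_iff₀ hpos]; exact h2)
  rw [div_le_iff₀ hpos] at h5
  have h6 : (1 / 2 : ℝ) ^ k * 2 ^ k = 1 := by rw [← mul_pow]; norm_num
  nlinarith

end Pool.Agent.TH254.CC
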