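import Mathlib
import Pool.Agent.TH254.CC.Rm
import Pool.Agent.TH254.CC.Com
import Pool.Agent.TH254.CC.TrEq

set_option autoImplicit false
set_option linter.unusedSectionVars false
set_option linter.deprecated false

/-! The transfer of families with commuting projections. -/

open scoped InnerProductSpace ComplexOrder

namespace Pool.Agent.TH254.CC

open H759R2.Kad H710R2.DP

variable {H : Type} [NormedAddCommGroup H] [InnerProductSpace ℂ H] [CompleteSpace H]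

theorem comm_of_proj (C : VonNeumannAlgebra H) (hC : ∀ a ∈ C, ∀ b ∈ C, a * b = b * a)
    (x : H →L[ℂ] H) (h : ∀ p ∈ C, IsPr p → p * x = x * p) : ∀ c ∈ C, c * x = x * c := by
  have hS : ∀ a ∈ ({x, star x} : Set (H →L[ℂ] H)), star a ∈ ({x, star x} : Set (H →L[ℂ] H)) := by
    rintro a (rfl | rfl)
    · exact Or.inr rfl
    · left
      rw [star_star]
  have h1 := le_of_proj C (cenV {x, star x}) hC (by
    intro p hp hpp
    rw [mem_cenV hS]
    rintro a (rfl | rfl)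
    · exact (h p hp hpp).symm
    · have := congrArg star (h p hp hpp)
      rw [star_mul, star_mul, hpp.1] at this
      exact this)
  intro c hc
  exact ((mem_cenV hS).mp (h1 c hc) x (Or.inl rfl)).symm

theorem comm_of_sy (C : VonNeumannAlgebra H) (hC : ∀ a ∈ C, ∀ b ∈ C, a * b = b * a)
    (x : H →L[ℂ] H) (h : ∀ u : Sy C, u.1 * x = x * u.1) : ∀ c ∈ C, c * x = x * c := by
  refine comm_of_proj C hC x fun p hp hpp => ?_
  have h1 := h ⟨_, sy_of_pr hp hpp⟩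
  have h2 : ((2 : ℂ) • p - 1) * x = x * ((2 : ℂ) • p - 1) := h1
  rw [pr_of_sy p, smul_mul_assoc, mul_smul_comm, add_mul, mul_add, h2, one_mul, mul_one]

/-- the functional commutes with means -/
theorem IsMn.tr_eq {G : Type} [CommGroup G] {ξ : ℕ → H} (hs : Summable fun k => ‖ξ k‖ ^ 2)
    {f : G → (H →L[ℂ] H)} {S : H →L[ℂ] H} (h : IsMn f S) (c : ℝ) (hf : ∀ s, ‖f s‖ ≤ c) (t : ℂ)
    (ht : ∀ s, tr ξ (f s) = t) : tr ξ S = t := by
  have h1 : Filter.Tendsto (fun F : Finset G => ∑' k, ⟪ξ k, (av F f) (ξ k)⟫_ℂ) (UU G)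
      (nhds (∑' k, ⟪ξ k, S (ξ k)⟫_ℂ)) := by
    refine tendsto_tsum_of_dominated_convergence (bound := fun k => c * ‖ξ k‖ ^ 2)
      (hs.mul_left c) (fun k => h (ξ k) (ξ k)) ?_
    refine Filter.Eventually.of_forall fun F k => ?_
    calc ‖⟪ξ k, (av F f) (ξ k)⟫_ℂ‖ ≤ ‖ξ k‖ * ‖(av F f) (ξ k)‖ := norm_inner_le_norm _ _
      _ ≤ ‖ξ k‖ * (c * ‖ξ k‖) := by
          gcongr
          exact (ContinuousLinearMap.le_opNorm _ _).trans
            (mul_le_mul_of_nonneg_right (av_norm F f c hf) (norm_nonneg _))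
      _ = c * ‖ξ k‖ ^ 2 := by ring
  have h2 : ∀ F : Finset G, ∑' k, ⟪ξ k, (av F f) (ξ k)⟫_ℂ = t := by
    intro F
    have e1 : tr ξ (av F f) = av F (fun s => tr ξ (f s)) := by
      unfold av
      rw [tr_smul, tr_sum hs]
      rfl
    have e2 : ∑' k, ⟪ξ k, (av F f) (ξ k)⟫_ℂ = tr ξ (av F f) := rfl
    rw [e2, e1]
    simp only [ht]
    exact av_const F t
  simp only [h2] at h1
  exact (tendsto_nhds_unique tendsto_const_nhds h1).symm

theorem tr_eq_on {M N C : VonNeumannAlgebra H} {ξ ξ' : ℕ → H} (hM : Fn M ξ) (hN : Fn N ξ')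
    {δ : ℝ} (hδ0 : 0 < δ) (hδ : δ ≤ 1 / 100000) (hMN : Near M N δ) (hNM : Near N M δ)
    (hC : ∀ a ∈ C, ∀ b ∈ C, a * b = b * a) (hCM : ∀ x ∈ C, x ∈ M) (hCN : ∀ x ∈ C, x ∈ N) :
    ∀ c ∈ C, tr ξ c = tr ξ' c := by
  have h1 : ∀ p ∈ C, IsPr p → tr ξ p = tr ξ' p := by
    intro p hp hpp
    have a1 := tr_le hM hN hδ0 hδ hMN (hCM p hp) (hCN p hp) hpp hpp (by simp)
    have a2 := tr_le hN hM hδ0 hδ hNM (hCN p hp) (hCM p hp) hpp hpp (by simp)
    rw [(tr_pr (ξ := ξ) hpp).1, (tr_pr (ξ := ξ') hpp).1, le_antisymm a1 a2]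
  intro c hc
  have h2 : ∀ ε : ℝ, 0 < ε → ‖tr ξ c - tr ξ' c‖ ≤ 2 * ε := by
    intro ε hε
    obtain ⟨n, a, p, hp, hcp⟩ := span_proj C hC c hc ε hε
    have e1 : tr ξ (∑ k, a k • p k) = tr ξ' (∑ k, a k • p k) := by
      rw [tr_sum hM.sum, tr_sum hN.sum]
      refine Finset.sum_congr rfl fun k _ => ?_
      rw [tr_smul, tr_smul, h1 _ (hp k).1 (hp k).2]
    have e2 : tr ξ c - tr ξ' c = tr ξ (c - ∑ k, a k • p k) - tr ξ' (c - ∑ k, a k • p k) := by
      rw [tr_sub hM.sum, tr_sub hN.sum, e1]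
      ring
    rw [e2]
    have n1 := (hM.norm_tr (c - ∑ k, a k • p k)).trans hcp
    have n2 := (hN.norm_tr (c - ∑ k, a k • p k)).trans hcp
    have n3 := norm_sub_le (tr ξ (c - ∑ k, a k • p k)) (tr ξ' (c - ∑ k, a k • p k))
    linarith
  have h3 : ‖tr ξ c - tr ξ' c‖ ≤ 0 := by
    refine le_of_forall_pos_le_add fun ε hε => ?_
    have := h2 (ε / 2) (by linarith)
    linarith
  have h4 := norm_le_zero_iff.mp h3
  exact sub_eq_zero.mp h4

theorem Fam.unconj {N : VonNeumannAlgebra H} {ξ : ℕ → H} {n : ℕ} {p : Fin n → (H →L[ℂ] H)}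
    {ζ : Fin n → H} {w : H →L[ℂ] H} (hw : w * star w = 1) (hw' : star w * w = 1)
    (h : Fam (cj w N) (fun k => star w (ξ k)) p ζ) :
    Fam N ξ (fun i => w * p i * star w) (fun i => w (ζ i)) := by
  refine ⟨fun i => ⟨(mem_cj hw hw').mp (h.mem i).1, conj_pr hw' (h.mem i).2⟩, ?_⟩
  intro x hx i j
  have e4 : w * (star w * x * w) * star w = x := by
    calc w * (star w * x * w) * star w = (w * star w) * x * (w * star w) := by noncomm_ring
      _ = x := by rw [hw, one_mul, mul_one]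
  have h1 := h.inn (star w * x * w) ((mem_cj hw hw').mpr (by rw [e4]; exact hx)) i j
  have h2 : ⟪w (ζ j), x (w (ζ i))⟫_ℂ = ⟪ζ j, (star w * x * w) (ζ i)⟫_ℂ := by
    rw [ContinuousLinearMap.star_eq_adjoint]
    exact (ContinuousLinearMap.adjoint_inner_right w (ζ j) (x (w (ζ i)))).symm
  show ⟪w (ζ j), x (w (ζ i))⟫_ℂ = _
  rw [h2, h1, tr_conj]
  have h3 : w * (star w * x * w * p i) * star w = x * (w * p i * star w) := by
    calc w * (star w * x * w * p i) * star w = (w * star w) * x * (w * p i * star w) := by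
          noncomm_ring
      _ = _ := by rw [hw, one_mul]
  rw [h3]

section

variable {M N C : VonNeumannAlgebra H}

/-- an element of a near algebra commuting with a maximal abelian `C ⊆ M ∩ N` is in `C` -/
theorem mem_masa_near (hC : ∀ a ∈ C, ∀ b ∈ C, a * b = b * a)
    (hmasa : ∀ x ∈ M, (∀ c ∈ C, c * x = x * c) → x ∈ C) (hCM : ∀ x ∈ C, x ∈ M)
    (hCN : ∀ x ∈ C, x ∈ N) {δ : ℝ} (hδ0 : 0 ≤ δ)
    (hδ : δ < 1) (hNM : Near N M δ) (z : H →L[ℂ] H) (hz : z ∈ N)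
    (hzc : ∀ c ∈ C, c * z = z * c) : z ∈ C := by
  letI := syGroup C hC
  have step : ∀ z ∈ N, (∀ c ∈ C, c * z = z * c) → ∃ c ∈ C, ‖z - c‖ ≤ δ * ‖z‖ := by
    intro z hz hzc
    obtain ⟨m, hm, hzm⟩ := hNM z hz
    have hgn : ∀ g : Sy C, ‖g.1‖ ≤ 1 := fun g =>
      norm_le_one_of_sq _ (by rw [g.2.2.1, g.2.2.2])
    obtain ⟨S, -, hS⟩ := exists_mn (G := Sy C) (fun g => g.1 * m * g.1) (1 * ‖m‖ * 1) (fun g =>
      (norm_mul_le _ _).trans (mul_le_mul ((norm_mul_le _ _).trans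
        (mul_le_mul (hgn g) le_rfl (norm_nonneg _) zero_le_one)) (hgn g) (norm_nonneg _)
          (by positivity)))
    have hSM : S ∈ M := hS.mem M fun g => mul_mem (mul_mem (hCM _ g.2.1) hm) (hCM _ g.2.1)
    have hSc : ∀ t : Sy C, t.1 * S = S * t.1 := by
      intro t
      refine (IsMn.congr (hS.mulLeft t.1) fun g => ?_).unique
        ((hS.shift (fun g : Sy C => Subtype.ext g.2.2.2) t).mulRight t.1)
      have e1 : (t * g).1 = t.1 * g.1 := rfl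
      have e2 : (t * g).1 * t.1 = g.1 := by
        rw [e1, hC _ t.2.1 _ g.2.1, mul_assoc, t.2.2.2, mul_one]
      show t.1 * (g.1 * m * g.1) = (t * g).1 * m * (t * g).1 * t.1
      rw [mul_assoc ((t * g).1 * m), e2, e1]
      noncomm_ring
    refine ⟨S, hmasa S hSM (comm_of_sy C hC S hSc), ?_⟩
    rw [norm_sub_rev]
    refine hS.norm_sub z _ fun g => ?_
    have e : g.1 * m * g.1 - z = g.1 * (m - z) * g.1 := by
      have : g.1 * (m - z) * g.1 = g.1 * m * g.1 - (g.1 * z) * g.1 := by noncomm_ring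
      rw [this, hzc _ g.2.1, mul_assoc z, g.2.2.2, mul_one]
    rw [e]
    have n1 : ‖g.1 * (m - z) * g.1‖ ≤ 1 * (δ * ‖z‖) * 1 :=
      (norm_mul_le _ _).trans (mul_le_mul ((norm_mul_le _ _).trans
        (mul_le_mul (hgn g) (by rw [norm_sub_rev]; exact hzm) (norm_nonneg _) zero_le_one))
          (hgn g) (norm_nonneg _) (by positivity))
    linarith
  have iter : ∀ k : ℕ, ∃ c ∈ C, ‖z - c‖ ≤ δ ^ k * ‖z‖ := by
    intro k
    induction k with
    | zero => exact ⟨0, zero_mem C, by simp⟩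
    | succ k ih =>
      obtain ⟨c, hc, h1⟩ := ih
      obtain ⟨d, hd, h2⟩ := step (z - c) (sub_mem hz (hCN c hc)) (by
        intro a ha
        rw [mul_sub, sub_mul, hzc a ha, hC a ha c hc])
      refine ⟨c + d, add_mem hc hd, ?_⟩
      rw [← sub_sub]
      calc ‖z - c - d‖ ≤ δ * ‖z - c‖ := h2
        _ ≤ δ * (δ ^ k * ‖z‖) := by gcongr
        _ = δ ^ (k + 1) * ‖z‖ := by ring
  refine vn_closed C z fun ε hε => ?_
  have h1 : Filter.Tendsto (fun k : ℕ => δ ^ k * ‖z‖) Filter.atTop (nhds (0 * ‖z‖)) :=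
    (tendsto_pow_atTop_nhds_zero_of_lt_one hδ0 hδ).mul_const _
  rw [zero_mul] at h1
  obtain ⟨k, hk⟩ := (h1.eventually (gt_mem_nhds hε)).exists
  obtain ⟨c, hc, h2⟩ := iter k
  exact ⟨c, hc, h2.trans hk.le⟩

end

theorem core {M N : VonNeumannAlgebra H} {ξ ξ' : ℕ → H} (hM : Fn M ξ) (hN : Fn N ξ')
    {δ : ℝ} (hδ0 : 0 < δ) (hδ : δ ≤ 1 / 10 ^ 22) (hMN : Near M N δ) (hNM : Near N M δ)
    {n : ℕ} {p : Fin n → (H →L[ℂ] H)} {ζ : Fin n → H} (hF : Fam M ξ p ζ)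
    (hpc : ∀ i j, p i * p j = p j * p i) :
    ∃ (q : Fin n → (H →L[ℂ] H)) (η : Fin n → H), Fam N ξ' q η ∧
      ∀ i, tr ξ' (q i) = tr ξ (p i) := by
  have hδ' : δ ≤ 1 / 10000000000000000000000 := by
    refine hδ.trans (le_of_eq ?_)
    norm_num
  -- the maximal abelian subalgebra
  obtain ⟨C, hCM, hpC, hC, hmasa⟩ := exists_masa M (Set.range p)
    (by rintro _ ⟨i, rfl⟩; exact hF.mem i) (by rintro _ ⟨i, rfl⟩ _ ⟨j, rfl⟩; exact hpc i j)
  have hp : ∀ i, p i ∈ C := fun i => hpC _ ⟨i, rfl⟩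
  -- first conjugation
  obtain ⟨w₁, u1, u2, u3, u4⟩ := kaz_masa C N hC δ hδ0 (by linarith) (fun u hu hu1 => by
    obtain ⟨y, hy, hxy⟩ := hMN u (hCM u hu)
    exact ⟨y, hy, hxy.trans (mul_le_of_le_one_right hδ0.le hu1)⟩)
  have hCN₁ : ∀ x ∈ C, x ∈ cj w₁ N := fun x hx => (mem_cj u1 u2).mpr (u4 x hx)
  have hN₁ := hN.conj u1 u2
  have near1 : Near M (cj w₁ N) (801 * δ) := by
    have := hMN.conj_right hδ0.le u1 u2 u3
    have e : δ + 2 * (400 * δ) = 801 * δ := by ring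
    rwa [e] at this
  have near2 : Near (cj w₁ N) M (801 * δ) := by
    have := hNM.conj_left hδ0.le u1 u2 u3
    have e : δ + 2 * (400 * δ) = 801 * δ := by ring
    rwa [e] at this
  -- second conjugation
  obtain ⟨ε, hε⟩ : ∃ ε : ℝ, ε = 216 * 2 ^ 23 * (2 * (801 * δ)) := ⟨_, rfl⟩
  have hε0 : 0 < ε := by rw [hε]; positivity
  have hε1 : ε ≤ 1 / 1000000000 := by
    rw [hε]
    norm_num
    linarith
  letI := syGroup C hC
  have hgg : ∀ g h : Sy C, (g * h).1 = g.1 * h.1 := fun _ _ => rfl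
  have hρ1 : rm M ζ (1 : Sy C).1 = 1 := rm_one hM hF hCM hC hp
  have hρm : ∀ g h : Sy C, rm M ζ (g * h).1 = rm M ζ g.1 * rm M ζ h.1 := fun g h =>
    rm_mul hM hF hCM hC hp g.2 h.2 (g * h).2
  have hρs : ∀ g : Sy C, star (rm M ζ g.1) = rm M ζ g.1 := fun g => rm_star M ζ g.1
  have hρc : ∀ g : Sy C, rm M ζ g.1 ∈ M.commutant := fun g =>
    rm_commutant hM hF hCM hC hp g.2
  have hρρ : ∀ g : Sy C, rm M ζ g.1 * rm M ζ g.1 = 1 := by
    intro g
    rw [← hρm g g]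
    have : g * g = 1 := Subtype.ext g.2.2.2
    rw [this, hρ1]
  obtain ⟨w₂, v1, v2, v3, v4, v5⟩ := kaz (G := Sy C) (fun g => Subtype.ext g.2.2.2)
    (cj w₁ N).commutant (fun g => rm M ζ g.1) hρ1 hρm hρs {b | b ∈ C ∧ star b = b}
    (fun b hb => hb.2) (fun b hb x hx => VonNeumannAlgebra.mem_commutant_iff.mp hx b
      (hCN₁ b hb.1)) (fun b hb g => VonNeumannAlgebra.mem_commutant_iff.mp (hρc g) b
      (hCM b hb.1)) ε hε0 (by linarith) (fun g => by
        obtain ⟨t, ht, h1⟩ := near_commutant hN₁ (by positivity) near2 _ (hρc g)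
        refine ⟨t, ht, h1.trans ?_⟩
        rw [hε]
        have h2 : ‖rm M ζ g.1‖ ≤ 1 := norm_le_one_of_sq _ (by rw [hρs, hρρ])
        have h3 : 0 ≤ 2 * (801 * δ) := by positivity
        have h4 : 2 * (801 * δ) * ‖rm M ζ g.1‖ ≤ 2 * (801 * δ) :=
          mul_le_of_le_one_right h3 h2
        exact mul_le_mul_of_nonneg_left h4 (by positivity))
  have hCN₂ : ∀ x ∈ C, x ∈ cj w₂ (cj w₁ N) := by
    refine le_of_proj C _ hC fun e he hee => ?_
    rw [mem_cj v1 v2]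
    have h1 : e * w₂ = w₂ * e := v5 e ⟨he, hee.1⟩
    rw [← h1, mul_assoc, v1, mul_one]
    exact hCN₁ e he
  have hρN₂ : ∀ g : Sy C, rm M ζ g.1 ∈ (cj w₂ (cj w₁ N)).commutant := fun g =>
    (mem_cj_commutant v1 v2).mpr (v4 g)
  have hN₂ := hN₁.conj v1 v2
  obtain ⟨κ, hκ⟩ : ∃ κ : ℝ, κ = 801 * δ + 2 * (400 * ε) := ⟨_, rfl⟩
  have hκ0 : 0 < κ := by rw [hκ]; positivity
  have hκ1 : κ ≤ 1 / 100000 := by rw [hκ]; linarith
  have near3 : Near M (cj w₂ (cj w₁ N)) κ := by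
    rw [hκ]
    exact near1.conj_right (by positivity) v1 v2 v3
  have near4 : Near (cj w₂ (cj w₁ N)) M κ := by
    rw [hκ]
    exact near2.conj_left (by positivity) v1 v2 v3
  have htr := tr_eq_on hM hN₂ hκ0 hκ1 near3 near4 hC hCM hCN₂
  -- the family for the conjugate
  have hfam : Fam (cj w₂ (cj w₁ N)) (fun k => star w₂ (star w₁ (ξ' k))) p ζ := by
    refine ⟨fun i => ⟨hCN₂ _ (hp i), (hF.mem i).2⟩, ?_⟩
    intro y hy i j
    have hgn : ∀ g : Sy C, ‖g.1‖ ≤ 1 := fun g =>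
      norm_le_one_of_sq _ (by rw [g.2.2.1, g.2.2.2])
    have hfn : ∀ g : Sy C, ‖g.1 * y * g.1‖ ≤ 1 * ‖y‖ * 1 := fun g =>
      (norm_mul_le _ _).trans (mul_le_mul ((norm_mul_le _ _).trans
        (mul_le_mul (hgn g) le_rfl (norm_nonneg _) zero_le_one)) (hgn g) (norm_nonneg _)
          (by positivity))
    obtain ⟨z, -, hz⟩ := exists_mn (G := Sy C) (fun g => g.1 * y * g.1) (1 * ‖y‖ * 1) hfn
    have hzN : z ∈ cj w₂ (cj w₁ N) :=
      hz.mem _ fun g => mul_mem (mul_mem (hCN₂ _ g.2.1) hy) (hCN₂ _ g.2.1)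
    have hzc : ∀ t : Sy C, t.1 * z = z * t.1 := by
      intro t
      refine (IsMn.congr (hz.mulLeft t.1) fun g => ?_).unique
        ((hz.shift (fun g : Sy C => Subtype.ext g.2.2.2) t).mulRight t.1)
      have e1 : (t * g).1 = t.1 * g.1 := rfl
      have e2 : (t * g).1 * t.1 = g.1 := by
        rw [e1, hC _ t.2.1 _ g.2.1, mul_assoc, t.2.2.2, mul_one]
      show t.1 * (g.1 * y * g.1) = (t * g).1 * y * (t * g).1 * t.1
      rw [mul_assoc ((t * g).1 * y), e2, e1]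
      noncomm_ring
    have hzC : z ∈ C := mem_masa_near hC hmasa hCM hCN₂ hκ0.le (by linarith) near4 z hzN
      (comm_of_sy C hC z hzc)
    -- matrix coefficients
    have hζ : ∀ (g : Sy C) (i : Fin n), g.1 (ζ i) = rm M ζ g.1 (ζ i) := fun g i =>
      (rm_apply (x := 1) hM hF hCM hC hp g.2 (one_mem M) i).symm
    have s1 : ∀ g : Sy C, ⟪ζ j, (g.1 * y * g.1) (ζ i)⟫_ℂ = ⟪ζ j, y (ζ i)⟫_ℂ := by
      intro g
      have k1 : ⟪ζ j, (g.1 * y * g.1) (ζ i)⟫_ℂ = ⟪g.1 (ζ j), y (g.1 (ζ i))⟫_ℂ := by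
        have := ContinuousLinearMap.adjoint_inner_right g.1 (ζ j) (y (g.1 (ζ i)))
        rw [← ContinuousLinearMap.star_eq_adjoint, g.2.2.1] at this
        exact this
      have k2 : ⟪rm M ζ g.1 (ζ j), y (rm M ζ g.1 (ζ i))⟫_ℂ =
          ⟪ζ j, (rm M ζ g.1 * (y * rm M ζ g.1)) (ζ i)⟫_ℂ := by
        have := ContinuousLinearMap.adjoint_inner_right (rm M ζ g.1) (ζ j)
          (y (rm M ζ g.1 (ζ i)))
        rw [← ContinuousLinearMap.star_eq_adjoint, hρs] at this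
        exact this.symm
      have k3 : y * rm M ζ g.1 = rm M ζ g.1 * y :=
        VonNeumannAlgebra.mem_commutant_iff.mp (hρN₂ g) y hy
      rw [k1, hζ g j, hζ g i, k2, k3, ← mul_assoc, hρρ, one_mul]
    have s2 : ⟪ζ j, z (ζ i)⟫_ℂ = ⟪ζ j, y (ζ i)⟫_ℂ := hz.re_inner (ζ i) (ζ j) _ s1
    rw [← s2, hF.inn z (hCM z hzC) i j]
    by_cases hij : i = j
    · rw [if_pos hij, if_pos hij, htr _ (mul_mem hzC (hp i))]
      refine IsMn.tr_eq hN₂.sum (hz.mulRight (p i)) (1 * ‖y‖ * 1 * 1) (fun g =>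
        (norm_mul_le _ _).trans (mul_le_mul (hfn g) (pr_norm (hF.mem i).2) (norm_nonneg _)
          (by positivity))) _ (fun g => ?_)
      have hpi := hCN₂ _ (hp i)
      have hgi := hCN₂ _ g.2.1
      have e1 : g.1 * y * g.1 * p i = g.1 * (y * (g.1 * p i)) := by noncomm_ring
      rw [e1, hN₂.comm _ hgi _ (mul_mem hy (mul_mem hgi hpi))]
      have e2 : y * (g.1 * p i) * g.1 = y * p i := by
        rw [hC _ g.2.1 _ (hp i)]
        calc y * (p i * g.1) * g.1 = y * p i * (g.1 * g.1) := by noncomm_ring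
          _ = y * p i := by rw [g.2.2.2, mul_one]
      rw [e2]
    · rw [if_neg hij, if_neg hij]
  refine ⟨_, _, (hfam.unconj v1 v2).unconj u1 u2, ?_⟩
  intro i
  have h1 := htr _ (hp i)
  rw [tr_conj, tr_conj] at h1
  exact h1.symm

end Pool.Agent.TH254.CC
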