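import Mathlib
import Pool.Agent.TH254.CC.Core

set_option autoImplicit false
set_option linter.unusedSectionVars false
set_option linter.deprecated false

/-! The transfer of arbitrary families. -/

open scoped InnerProductSpace ComplexOrder

namespace Pool.Agent.TH254.CC

open H759R2.Kad H710R2.DP

variable {H : Type} [NormedAddCommGroup H] [InnerProductSpace ℂ H] [CompleteSpace H]

/-- projections can be replaced by equivalent commuting ones -/
theorem exists_chain {M : VonNeumannAlgebra H} {ξ : ℕ → H} (hM : Fn M ξ) {n : ℕ}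
    (p : Fin n → (H →L[ℂ] H)) (hp : ∀ i, p i ∈ M ∧ IsPr (p i)) (s : Finset (Fin n)) :
    ∀ q ∈ M, IsPr q → (∀ i ∈ s, (tr ξ (p i)).re ≤ (tr ξ q).re) →
      ∃ v : Fin n → (H →L[ℂ] H), (∀ i ∈ s, v i ∈ M ∧ star (v i) * v i = p i ∧ q * v i = v i) ∧
        ∀ i ∈ s, ∀ j ∈ s, v i * star (v i) * (v j * star (v j)) =
          v j * star (v j) * (v i * star (v i)) := by
  classical
  induction s using Finset.induction_on_max_value (fun i => (tr ξ (p i)).re) with
  | empty =>
    intro q _ _ _
    exact ⟨fun _ => 0, fun i hi => absurd hi (Finset.notMem_empty i),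
      fun i hi => absurd hi (Finset.notMem_empty i)⟩
  | insert a s ha hmax ih =>
    intro q hqM hq hle
    obtain ⟨u, huM, hu1, hu2⟩ := hM.comp (hp a).1 hqM (hp a).2 hq
      (hle a (Finset.mem_insert_self a s))
    have hue : u * (star u * u) = u := pi_of_pr (by rw [hu1]; exact (hp a).2)
    have hepr : IsPr (u * star u) := (pr_of_pi (v := u) (by rw [mul_assoc, hue])).2
    have heM : u * star u ∈ M := mul_mem huM (star_mem huM)
    have hetr : tr ξ (u * star u) = tr ξ (p a) := by
      rw [hM.comm u huM (star u) (star_mem huM), hu1]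
    obtain ⟨v, hv, hvc⟩ := ih (u * star u) heM hepr (by
      intro i hi
      rw [hetr]
      exact hmax i hi)
    have hvne : ∀ i ∈ s, Function.update v a u i = v i := by
      intro i hi
      rw [Function.update_of_ne]
      rintro rfl
      exact ha hi
    have hcom : ∀ j ∈ s, u * star u * (v j * star (v j)) = v j * star (v j) * (u * star u) := by
      intro j hj
      have h1 : u * star u * (v j * star (v j)) = v j * star (v j) := by
        rw [← mul_assoc, (hv j hj).2.2]
      have h2 := congrArg star h1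
      rw [star_mul, star_mul, star_star, hepr.1] at h2
      rw [h1, h2]
    refine ⟨Function.update v a u, ?_, ?_⟩
    · intro i hi
      rcases Finset.mem_insert.mp hi with rfl | hi
      · rw [Function.update_self]
        exact ⟨huM, hu1, hu2⟩
      · rw [hvne i hi]
        refine ⟨(hv i hi).1, (hv i hi).2.1, ?_⟩
        calc q * v i = q * (u * star u * v i) := by rw [(hv i hi).2.2]
          _ = (q * u) * star u * v i := by noncomm_ring
          _ = v i := by rw [hu2, (hv i hi).2.2]
    · intro i hi j hj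
      rcases Finset.mem_insert.mp hi with hia | hi'
      · rcases Finset.mem_insert.mp hj with hja | hj'
        · rw [hia, hja]
        · rw [hia, Function.update_self, hvne j hj']
          exact hcom j hj'
      · rcases Finset.mem_insert.mp hj with hja | hj'
        · rw [hja, Function.update_self, hvne i hi']
          exact (hcom i hi').symm
        · rw [hvne i hi', hvne j hj']
          exact hvc i hi' j hj'

/-- a family may be replaced by one with commuting projections -/
theorem Fam.commuting {M : VonNeumannAlgebra H} {ξ : ℕ → H} (hM : Fn M ξ) {n : ℕ}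
    {p : Fin n → (H →L[ℂ] H)} {ζ : Fin n → H} (hF : Fam M ξ p ζ) :
    ∃ (q : Fin n → (H →L[ℂ] H)) (η : Fin n → H), Fam M ξ q η ∧
      (∀ i j, q i * q j = q j * q i) ∧ ∀ i, tr ξ (q i) = tr ξ (p i) := by
  obtain ⟨v, hv, hvc⟩ := exists_chain hM p hF.mem Finset.univ 1 (one_mem M)
    ⟨star_one _, one_mul 1⟩ (fun i _ => pr_le hM.sum ⟨star_one _, one_mul 1⟩ (hF.mem i).2
      (one_mul _))
  have hvM : ∀ i, v i ∈ M := fun i => (hv i (Finset.mem_univ i)).1
  have hv1 : ∀ i, star (v i) * v i = p i := fun i => (hv i (Finset.mem_univ i)).2.1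
  have hvp : ∀ i, v i * p i = v i := by
    intro i
    have := pi_of_pr (v := v i) (by rw [hv1]; exact (hF.mem i).2)
    rwa [hv1] at this
  refine ⟨fun i => v i * star (v i), fun i => v i (ζ i), ⟨fun i => ⟨mul_mem (hvM i)
    (star_mem (hvM i)), (pr_of_pi (v := v i) (by rw [mul_assoc, hv1, hvp])).2⟩, ?_⟩,
    fun i j => hvc i (Finset.mem_univ i) j (Finset.mem_univ j), ?_⟩
  · intro x hx i j
    have h2 : ⟪v j (ζ j), x (v i (ζ i))⟫_ℂ = ⟪ζ j, (star (v j) * x * v i) (ζ i)⟫_ℂ := by
      rw [ContinuousLinearMap.star_eq_adjoint]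
      exact (ContinuousLinearMap.adjoint_inner_right (v j) (ζ j) (x (v i (ζ i)))).symm
    show ⟪v j (ζ j), x (v i (ζ i))⟫_ℂ = _
    rw [h2, hF.inn _ (mul_mem (mul_mem (star_mem (hvM j)) hx) (hvM i)) i j]
    by_cases hij : i = j
    · subst hij
      rw [if_pos rfl, if_pos rfl]
      have h3 : star (v i) * x * v i * p i = star (v i) * (x * (v i * p i)) := by noncomm_ring
      rw [h3, hvp, hM.comm _ (star_mem (hvM i)) _ (mul_mem hx (hvM i)), mul_assoc]
    · rw [if_neg hij, if_neg hij]
  · intro i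
    rw [hM.comm _ (hvM i) _ (star_mem (hvM i)), hv1]

theorem transfer {M N : VonNeumannAlgebra H} {ξ ξ' : ℕ → H} (hM : Fn M ξ) (hN : Fn N ξ')
    {δ : ℝ} (hδ0 : 0 < δ) (hδ : δ ≤ 1 / 10 ^ 22) (hMN : Near M N δ) (hNM : Near N M δ)
    {n : ℕ} {p : Fin n → (H →L[ℂ] H)} {ζ : Fin n → H} (hF : Fam M ξ p ζ) :
    ∃ (q : Fin n → (H →L[ℂ] H)) (η : Fin n → H), Fam N ξ' q η ∧
      ∀ i, tr ξ' (q i) = tr ξ (p i) := by
  obtain ⟨p', ζ', hF', hc, htr⟩ := hF.commuting hM
  obtain ⟨q, η, hq, hqt⟩ := core hM hN hδ0 hδ hMN hNM hF' hc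
  exact ⟨q, η, hq, fun i => by rw [hqt, htr]⟩

end Pool.Agent.TH254.CC
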